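import Pool.Agent.W_MP_3feab3_lc.Defs

/-! From the list form of the problem to graphs on `Fin n`. -/

set_option autoImplicit false

namespace Pool.Agent.W_MP_3feab3_lc

theorem bridge_adj_iff {E : List (ℕ × ℕ)} {x y : ℕ} :
    adj E x y = true ↔ x ≠ y ∧ ((x, y) ∈ E ∨ (y, x) ∈ E) := by
  unfold adj
  simp only [Bool.and_eq_true, Bool.not_eq_true', decide_eq_false_iff_not, List.any_eq_true,
    Bool.or_eq_true, decide_eq_true_eq]
  constructor
  · rintro ⟨h1, e, he, h | h⟩
    · exact ⟨h1, Or.inl (by rw [← h.1, ← h.2]; exact he)⟩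
    · exact ⟨h1, Or.inr (by rw [← h.1, ← h.2]; exact he)⟩
  · rintro ⟨h1, h | h⟩
    · exact ⟨h1, _, h, Or.inl ⟨rfl, rfl⟩⟩
    · exact ⟨h1, _, h, Or.inr ⟨rfl, rfl⟩⟩

theorem bridge_listGraph_adj {n : ℕ} {E : List (ℕ × ℕ)} {i j : Fin n} :
    (listGraph n E).Adj i j ↔ adj E i j = true := by
  rw [bridge_adj_iff, listGraph, SimpleGraph.fromRel_adj]
  simp [Fin.ext_iff]

section

variable {n : ℕ} {E : List (ℕ × ℕ)} {d : ℕ} {T : Set (Fin n)} {B : Set ℕ}

theorem bridge_conn_of_reachable (hB : ∀ i : Fin n, i ∈ T ↔ (i : ℕ) ∈ B) {u v : T}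
    (h : ((listGraph n E).induce T).Reachable u v) :
    Conn E B ((u : Fin n) : ℕ) ((v : Fin n) : ℕ) := by
  obtain ⟨p⟩ := h
  induction p with
  | nil => exact Relation.ReflTransGen.refl
  | @cons a b c hab p ih =>
    refine Relation.ReflTransGen.head ⟨(hB b).1 b.2, ?_⟩ ih
    exact bridge_listGraph_adj.1 hab

theorem bridge_reachable_of_conn (hB : ∀ i : Fin n, i ∈ T ↔ (i : ℕ) ∈ B)
    (hB2 : ∀ b ∈ B, b < n) {u : T} {y : ℕ} (h : Conn E B ((u : Fin n) : ℕ) y) :
    ∃ v : T, ((v : Fin n) : ℕ) = y ∧ ((listGraph n E).induce T).Reachable u v := by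
  induction h with
  | refl => exact ⟨u, rfl, SimpleGraph.Reachable.refl _⟩
  | @tail b c _ hbc ih =>
    obtain ⟨v, hv, hr⟩ := ih
    have hc : (⟨c, hB2 c hbc.1⟩ : Fin n) ∈ T := (hB _).2 hbc.1
    refine ⟨⟨⟨c, hB2 c hbc.1⟩, hc⟩, rfl, hr.trans (SimpleGraph.Adj.reachable ?_)⟩
    show (listGraph n E).Adj (v : Fin n) ⟨c, hB2 c hbc.1⟩
    rw [bridge_listGraph_adj]
    rw [hv]
    exact hbc.2

theorem bridge_key (hB : ∀ i : Fin n, i ∈ T ↔ (i : ℕ) ∈ B) (hB2 : ∀ b ∈ B, b < n) :
    (∀ C : ((listGraph n E).induce T).ConnectedComponent, DomLE C.toSimpleGraph d) ↔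
      Good E d B := by
  classical
  constructor
  · intro H v hv
    set u : T := ⟨⟨v, hB2 v hv⟩, (hB _).2 hv⟩ with hu
    obtain ⟨D, hD, hdom⟩ := H (((listGraph n E).induce T).connectedComponentMk u)
    refine ⟨D.image (fun w => ((w.1 : Fin n) : ℕ)), Finset.card_image_le.trans hD, ?_, ?_⟩
    · intro x hx
      obtain ⟨w, -, rfl⟩ := Finset.mem_image.1 hx
      have h1 := SimpleGraph.ConnectedComponent.exact w.2
      exact bridge_conn_of_reachable hB h1.symm
    · intro y hy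
      obtain ⟨w, rfl, hr⟩ := bridge_reachable_of_conn hB hB2 (u := u) hy
      have hw : w ∈ ((listGraph n E).induce T).connectedComponentMk u :=
        SimpleGraph.ConnectedComponent.sound hr.symm
      rcases hdom ⟨w, hw⟩ with h1 | ⟨z, hz, h1⟩
      · exact ⟨_, Finset.mem_image_of_mem _ h1, Or.inl rfl⟩
      · exact ⟨_, Finset.mem_image_of_mem _ hz, Or.inr (bridge_listGraph_adj.1 h1)⟩
  · intro H C
    refine SimpleGraph.ConnectedComponent.ind (fun u => ?_) C
    obtain ⟨D, hD, hconn, hdom⟩ := H _ ((hB _).1 u.2)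
    set f : (((listGraph n E).induce T).connectedComponentMk u) → ℕ :=
      fun w => ((w.1 : Fin n) : ℕ) with hf
    have hinj : Function.Injective f := by
      intro a b hab
      exact Subtype.ext (Subtype.ext (Fin.ext hab))
    have hmem : ∀ y, Conn E B ((u : Fin n) : ℕ) y → ∃ w, f w = y := by
      intro y hy
      obtain ⟨w, rfl, hr⟩ := bridge_reachable_of_conn hB hB2 hy
      exact ⟨⟨w, SimpleGraph.ConnectedComponent.sound hr.symm⟩, rfl⟩
    refine ⟨D.preimage f hinj.injOn, ?_, ?_⟩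
    · refine le_trans (Finset.card_le_card_of_injOn f ?_ hinj.injOn) hD
      intro w hw
      simpa using hw
    · intro w
      have h1 := SimpleGraph.ConnectedComponent.exact w.2
      obtain ⟨x, hx, hxw⟩ := hdom (f w) (bridge_conn_of_reachable hB h1.symm)
      obtain ⟨z, rfl⟩ := hmem x (hconn x hx)
      rcases hxw with h2 | h2
      · left
        rw [Finset.mem_preimage, ← h2]
        exact hx
      · right
        exact ⟨z, Finset.mem_preimage.2 hx, bridge_listGraph_adj.2 h2⟩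

end

theorem yes_iff (d n : ℕ) (E : List (ℕ × ℕ)) (k : ℕ) :
    YesN E d {a | a < n} k ↔ Solvable d (listGraph n E) k := by
  classical
  constructor
  · rintro ⟨S, hS, H⟩
    refine ⟨Finset.univ.filter (fun i : Fin n => (i : ℕ) ∈ S), ?_, ?_⟩
    · refine le_trans ?_ hS
      refine Finset.card_le_card_of_injOn (fun i : Fin n => (i : ℕ)) ?_ ?_
      · intro i hi
        simpa using hi
      · intro i _ j _ hij
        exact Fin.ext hij
    · refine (bridge_key (B := {a | a < n} \ (S : Set ℕ)) ?_ ?_).2 H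
      · intro i
        simp
      · intro b hb
        exact hb.1
  · rintro ⟨S, hS, H⟩
    refine ⟨S.map Fin.valEmbedding, by simpa using hS, ?_⟩
    refine (bridge_key (T := {v | v ∉ S}) ?_ ?_).1 H
    · intro i
      have h1 : ((i : ℕ) ∈ (S.map Fin.valEmbedding)) ↔ i ∈ S :=
        Finset.mem_map' Fin.valEmbedding
      simp only [Set.mem_ofPred_eq, Set.mem_sdiff, Finset.mem_coe, h1, i.2, true_and]
    · intro b hb
      exact hb.1

end Pool.Agent.W_MP_3feab3_lc
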