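import Pool.Agent.W_MP_3feab3_lc.Defs

/-! Small connected dominating sets. -/

set_option autoImplicit false

namespace Pool.Agent.W_MP_3feab3_lc

theorem conndom_adj_symm (E : List (ℕ × ℕ)) (x y : ℕ) : adj E x y = adj E y x := by
  unfold adj
  congr 1
  · rw [decide_eq_decide.mpr eq_comm]
  · congr 1
    funext e
    rw [Bool.or_comm]

theorem conndom_mono {E : List (ℕ × ℕ)} {A B : Set ℕ} (h : A ⊆ B) {u v : ℕ}
    (hc : Conn E A u v) : Conn E B u v := by
  induction hc with
  | refl => exact Relation.ReflTransGen.refl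
  | tail _ hb ih => exact Relation.ReflTransGen.tail ih ⟨h hb.1, hb.2⟩

theorem conndom_mem {E : List (ℕ × ℕ)} {A : Set ℕ} {u v : ℕ} (hu : u ∈ A)
    (hc : Conn E A u v) : v ∈ A := by
  rcases Relation.ReflTransGen.cases_tail hc with h | ⟨w, _, h⟩
  · rw [h]; exact hu
  · exact h.1

/-- finite subsets of `A` containing `v` and connected in themselves -/
def ConnDomOK (E : List (ℕ × ℕ)) (A : Set ℕ) (v : ℕ) (F : Finset ℕ) : Prop :=
  v ∈ F ∧ (∀ x ∈ F, x ∈ A) ∧ ∀ x ∈ F, Conn E (F : Set ℕ) v x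

theorem conndom_extend {E : List (ℕ × ℕ)} {A : Set ℕ} {v : ℕ} {F : Finset ℕ}
    (hF : ConnDomOK E A v F) {q p : ℕ} (hq : q ∈ F) (hp : p ∈ A) (hqp : adj E q p = true) :
    ConnDomOK E A v (insert p F) := by
  have hsub : (F : Set ℕ) ⊆ ((insert p F : Finset ℕ) : Set ℕ) := by
    intro x hx
    exact Finset.mem_coe.mpr (Finset.mem_insert_of_mem (Finset.mem_coe.mp hx))
  refine ⟨Finset.mem_insert_of_mem hF.1, ?_, ?_⟩
  · intro x hx
    rcases Finset.mem_insert.mp hx with rfl | hx
    · exact hp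
    · exact hF.2.1 x hx
  · intro x hx
    rcases Finset.mem_insert.mp hx with rfl | hx
    · refine Relation.ReflTransGen.tail (conndom_mono hsub (hF.2.2 q hq)) ⟨?_, hqp⟩
      exact Finset.mem_coe.mpr (Finset.mem_insert_self _ _)
    · exact conndom_mono hsub (hF.2.2 x hx)

theorem conndom_step {E : List (ℕ × ℕ)} {A : Set ℕ} {v : ℕ} (hv : v ∈ A) {D : Finset ℕ}
    (hD1 : ∀ x ∈ D, Conn E A v x) (hD2 : ∀ y, Conn E A v y → ∃ x ∈ D, x = y ∨ adj E x y = true)
    {F : Finset ℕ} (hF : ConnDomOK E A v F) {e₀ : ℕ} (he₀ : e₀ ∈ D) (he₀F : e₀ ∉ F) :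
    ∃ F' : Finset ℕ, F ⊆ F' ∧ F'.card ≤ F.card + 3 ∧ ConnDomOK E A v F' ∧
      ∃ e ∈ D, e ∉ F ∧ e ∈ F' := by
  by_contra hcon
  have hins : ∀ (p : ℕ) (F : Finset ℕ), (insert p F).card ≤ F.card + 1 :=
    fun p F => Finset.card_insert_le p F
  -- the set `F ∪ N(F)` is closed
  have hcl : ∀ y, Conn E A v y → y ∈ F ∨ ∃ q ∈ F, adj E q y = true := by
    intro y hy
    induction hy with
    | refl => exact Or.inl hF.1
    | @tail y z hy hz ih =>
      by_contra hzU
      push Not at hzU
      obtain ⟨hzF, hzN⟩ := hzU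
      have hyz : Conn E A v z := Relation.ReflTransGen.tail hy hz
      have hyF : y ∉ F := fun hyF => hzN y hyF hz.2
      obtain ⟨q, hq, hqy⟩ := ih.resolve_left hyF
      have hyA : y ∈ A := conndom_mem hv hy
      obtain ⟨e, he, hez⟩ := hD2 z hyz
      have heF : e ∉ F := by
        intro heF
        rcases hez with rfl | hez
        · exact hzF heF
        · exact hzN e heF hez
      have h1 := conndom_extend hF hq hyA hqy
      have h2 := conndom_extend h1 (Finset.mem_insert_self y F) hz.1 hz.2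
      rcases hez with rfl | hez
      · apply hcon
        refine ⟨insert e (insert y F), ?_, ?_, h2, e, he, heF, Finset.mem_insert_self _ _⟩
        · exact (Finset.subset_insert _ _).trans (Finset.subset_insert _ _)
        · have := hins e (insert y F)
          have := hins y F
          omega
      · have heA : e ∈ A := conndom_mem hv (hD1 e he)
        have h3 := conndom_extend h2 (Finset.mem_insert_self z _) heA
          (by rw [conndom_adj_symm]; exact hez)
        apply hcon
        refine ⟨insert e (insert z (insert y F)), ?_, ?_, h3, e, he, heF,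
          Finset.mem_insert_self _ _⟩
        · exact ((Finset.subset_insert _ _).trans (Finset.subset_insert _ _)).trans
            (Finset.subset_insert _ _)
        · have := hins e (insert z (insert y F))
          have := hins z (insert y F)
          have := hins y F
          omega
  obtain ⟨q, hq, hqe⟩ := (hcl e₀ (hD1 e₀ he₀)).resolve_left he₀F
  apply hcon
  refine ⟨insert e₀ F, Finset.subset_insert _ _, ?_,
    conndom_extend hF hq (conndom_mem hv (hD1 e₀ he₀)) hqe, e₀, he₀, he₀F,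
    Finset.mem_insert_self _ _⟩
  have := hins e₀ F
  omega

theorem conndom_iter {E : List (ℕ × ℕ)} {A : Set ℕ} {v : ℕ} (hv : v ∈ A) {D : Finset ℕ}
    (hD1 : ∀ x ∈ D, Conn E A v x) (hD2 : ∀ y, Conn E A v y → ∃ x ∈ D, x = y ∨ adj E x y = true) :
    ∀ (r : ℕ) (F : Finset ℕ), ConnDomOK E A v F → (D \ F).card ≤ r →
      ∃ F' : Finset ℕ, F'.card ≤ F.card + 3 * r ∧ ConnDomOK E A v F' ∧ D ⊆ F' := by
  intro r
  induction r with
  | zero =>
    intro F hF hr
    refine ⟨F, by omega, hF, ?_⟩
    have : D \ F = ∅ := Finset.card_eq_zero.mp (Nat.le_zero.mp hr)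
    exact Finset.sdiff_eq_empty_iff_subset.mp this
  | succ r ih =>
    intro F hF hr
    by_cases hsub : D ⊆ F
    · exact ⟨F, by omega, hF, hsub⟩
    · obtain ⟨e₀, he₀, he₀F⟩ := Finset.not_subset.mp hsub
      obtain ⟨F', hFF', hcard, hF', e, he, heF, heF'⟩ := conndom_step hv hD1 hD2 hF he₀ he₀F
      have hlt : (D \ F').card < (D \ F).card := by
        apply Finset.card_lt_card
        rw [Finset.ssubset_iff_of_subset (Finset.sdiff_subset_sdiff (Finset.Subset.refl _) hFF')]
        exact ⟨e, Finset.mem_sdiff.mpr ⟨he, heF⟩, fun h => (Finset.mem_sdiff.mp h).2 heF'⟩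
      obtain ⟨F'', h1, h2, h3⟩ := ih F' hF' (by omega)
      exact ⟨F'', by omega, h2, h3⟩

/-- If the component of `v` in `A` has a dominating set of size at most `d`, then it has a
connected dominating set of size at most `3d+1` containing `v`. -/
theorem exists_connected_dominating {E : List (ℕ × ℕ)} {d : ℕ} {A : Set ℕ} {v : ℕ} (hv : v ∈ A)
    (h : GoodAt E d A v) :
    ∃ F : Finset ℕ, F.card ≤ 3 * d + 1 ∧ v ∈ F ∧ (∀ x ∈ F, x ∈ A) ∧
      (∀ x ∈ F, Conn E (F : Set ℕ) v x) ∧
      ∀ y, Conn E A v y → ∃ x ∈ F, x = y ∨ adj E x y = true := by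
  obtain ⟨D, hDd, hD1, hD2⟩ := h
  have h0 : ConnDomOK E A v {v} := by
    refine ⟨Finset.mem_singleton_self _, ?_, ?_⟩
    · intro x hx
      rw [Finset.mem_singleton.mp hx]; exact hv
    · intro x hx
      rw [Finset.mem_singleton.mp hx]; exact Relation.ReflTransGen.refl
  obtain ⟨F, h1, h2, h3⟩ := conndom_iter hv hD1 hD2 d {v} h0
    ((Finset.card_le_card Finset.sdiff_subset).trans hDd)
  rw [Finset.card_singleton] at h1
  refine ⟨F, by omega, h2.1, h2.2.1, h2.2.2, ?_⟩
  intro y hy
  obtain ⟨x, hx, hxy⟩ := hD2 y hy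
  exact ⟨x, h3 hx, hxy⟩

end Pool.Agent.W_MP_3feab3_lc
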