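import Mathlib

/-! Small moduli separating a small set. -/

set_option autoImplicit false

namespace Pool.Agent.W_MP_3feab3_lc

/-- A set of at most `c` numbers below `n` is separated by a modulus
`q ≤ 2((log₂ n + 1) c² + 1)`. -/
theorem exists_modulus (n : ℕ) (Z : Finset ℕ) (hZ : ∀ z ∈ Z, z < n) (c : ℕ) (hc : Z.card ≤ c) :
    ∃ q < 2 * ((Nat.log 2 n + 1) * c ^ 2 + 1) + 1, 0 < q ∧
      ∀ x ∈ Z, ∀ y ∈ Z, x % q = y % q → x = y := by
  by_contra hcon
  push Not at hcon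
  set m : ℕ := (Nat.log 2 n + 1) * c ^ 2 + 1 with hm
  set T : Finset (ℕ × ℕ) := (Z ×ˢ Z).filter (fun p => p.1 < p.2) with hT
  set P : ℕ := ∏ p ∈ T, (p.2 - p.1) with hP
  have hPpos : 0 < P := by
    refine Finset.prod_pos fun p hp => ?_
    have := (Finset.mem_filter.1 hp).2
    omega
  have hdvd : ∀ q, 1 ≤ q → q ≤ 2 * m → q ∣ P := by
    intro q hq1 hq2
    obtain ⟨x, hx, y, hy, hxy, hne⟩ := hcon q (by omega) (by omega)
    rcases lt_or_gt_of_ne hne with h | h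
    · have h1 : (x, y) ∈ T := Finset.mem_filter.2 ⟨Finset.mem_product.2 ⟨hx, hy⟩, h⟩
      have h2 : q ∣ y - x := (Nat.modEq_iff_dvd' h.le).1 hxy
      exact h2.trans (Finset.dvd_prod_of_mem (fun p : ℕ × ℕ => p.2 - p.1) h1)
    · have h1 : (y, x) ∈ T := Finset.mem_filter.2 ⟨Finset.mem_product.2 ⟨hy, hx⟩, h⟩
      have h2 : q ∣ x - y := (Nat.modEq_iff_dvd' h.le).1 hxy.symm
      exact h2.trans (Finset.dvd_prod_of_mem (fun p : ℕ × ℕ => p.2 - p.1) h1)
  have hlcm : Nat.lcmUpto (2 * m) ∣ P := by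
    refine Finset.lcm_dvd fun q hq => ?_
    exact hdvd q (Finset.mem_Icc.1 hq).1 (Finset.mem_Icc.1 hq).2
  have hcb : Nat.centralBinom m ∣ P := by
    refine Dvd.dvd.trans ?_ hlcm
    rw [Nat.centralBinom_eq_two_mul_choose]
    exact Chebyshev.choose_dvd_lcmUpto (by omega)
  have hle : Nat.centralBinom m ≤ P := Nat.le_of_dvd hPpos hcb
  have hPle : P ≤ 2 ^ (m - 1) := by
    have h1 : P ≤ ∏ _p ∈ T, 2 ^ (Nat.log 2 n + 1) := by
      refine Finset.prod_le_prod' fun p hp => ?_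
      have h2 := (Finset.mem_filter.1 hp).1
      have h3 := hZ p.2 (Finset.mem_product.1 h2).2
      have h4 := Nat.lt_pow_succ_log_self (b := 2) (by norm_num) n
      omega
    rw [Finset.prod_const, ← pow_mul] at h1
    refine h1.trans (Nat.pow_le_pow_right (by norm_num) ?_)
    have h5 : T.card ≤ c ^ 2 := by
      refine (Finset.card_filter_le _ _).trans ?_
      rw [Finset.card_product, sq]
      exact Nat.mul_le_mul hc hc
    have h6 : m - 1 = (Nat.log 2 n + 1) * c ^ 2 := by omega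
    rw [h6]
    exact Nat.mul_le_mul_left _ h5
  have hm1 : 1 ≤ m := by omega
  have h4 := Nat.four_pow_le_two_mul_self_mul_centralBinom m (by omega)
  have h2m : 2 * m ≤ 2 ^ m := by
    have h7 := Nat.lt_two_pow_self (n := m - 1)
    have h8 : 2 ^ m = 2 * 2 ^ (m - 1) := by
      rw [← pow_succ']
      congr 1
    omega
  have h9 : (4 : ℕ) ^ m = 2 ^ m * 2 ^ m := by
    rw [← mul_pow]
    norm_num
  have h10 : 2 ^ m * 2 ^ m ≤ 2 ^ m * 2 ^ (m - 1) := by
    calc 2 ^ m * 2 ^ m = 4 ^ m := h9.symm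
      _ ≤ 2 * m * Nat.centralBinom m := h4
      _ ≤ 2 ^ m * 2 ^ (m - 1) := Nat.mul_le_mul h2m (hle.trans hPle)
  have h11 : 2 ^ m ≤ 2 ^ (m - 1) := Nat.le_of_mul_le_mul_left h10 (by positivity)
  have h12 : 2 ^ (m - 1) < 2 ^ m := Nat.pow_lt_pow_right (by norm_num) (by omega)
  omega

end Pool.Agent.W_MP_3feab3_lc
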