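import Pool.Agent.W_MP_3feab3_lc.Sem1
import Pool.Agent.W_MP_3feab3_lc.ConnDom
import Pool.Agent.W_MP_3feab3_lc.Hash

/-! Completeness of the branching rule in mode `0`. -/

set_option autoImplicit false

namespace Pool.Agent.W_MP_3feab3_lc

theorem c0_conn_mono {E : List (ℕ × ℕ)} {A B : Set ℕ} (h : A ⊆ B) {u v : ℕ}
    (hc : Conn E A u v) : Conn E B u v := by
  unfold Conn at hc ⊢
  exact Relation.ReflTransGen.mono (fun x y hxy => ⟨h hxy.1, hxy.2⟩) _ _ hc

theorem c0_conn_mem {E : List (ℕ × ℕ)} {A : Set ℕ} {u v : ℕ} (hc : Conn E A u v)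
    (hu : u ∈ A) : v ∈ A := by
  unfold Conn at hc
  induction hc with
  | refl => exact hu
  | tail _ h _ => exact h.1

theorem c0_conn_comp {E : List (ℕ × ℕ)} {U : List ℕ} {v : ℕ} (hv : v ∈ U) {y : ℕ}
    (hc : Conn E (st U) v y) : Conn E (st (comp E U [v])) v y := by
  have hX : ∀ x ∈ [v], x ∈ U := by simpa using hv
  unfold Conn at hc
  induction hc with
  | refl => exact Relation.ReflTransGen.refl
  | @tail b c hab hbc ih =>
    refine Relation.ReflTransGen.tail ih ⟨?_, hbc.2⟩
    show c ∈ comp E U [v]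
    rw [mem_comp hX]
    exact ⟨v, by simp, Relation.ReflTransGen.tail hab hbc⟩

theorem c0_residues {d : ℕ} {F : Finset ℕ} (hF : F.card ≤ 3 * d + 1) {v q : ℕ} (hv : v ∈ F)
    (hq : 0 < q) : ∃ R ∈ tups (3 * d + 1) (List.range q),
      (∀ f ∈ F, f % q ∈ R) ∧ ∀ r ∈ R, ∃ f ∈ F, f % q = r := by
  refine ⟨F.toList.map (fun f => f % q) ++ List.replicate (3 * d + 1 - F.card) (v % q),
    ?_, ?_, ?_⟩
  · rw [mem_tups]
    constructor
    · simp
      omega
    · intro a ha
      rw [List.mem_append] at ha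
      rw [List.mem_range]
      rcases ha with ha | ha
      · obtain ⟨f, _, rfl⟩ := List.mem_map.1 ha
        exact Nat.mod_lt _ hq
      · rw [List.eq_of_mem_replicate ha]
        exact Nat.mod_lt _ hq
  · intro f hf
    rw [List.mem_append]
    left
    exact List.mem_map.2 ⟨f, Finset.mem_toList.2 hf, rfl⟩
  · intro r hr
    rw [List.mem_append] at hr
    rcases hr with hr | hr
    · obtain ⟨f, hf, rfl⟩ := List.mem_map.1 hr
      exact ⟨f, Finset.mem_toList.1 hf, rfl⟩
    · exact ⟨v, hv, (List.eq_of_mem_replicate hr).symm⟩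

theorem c0_mem_sieve {A : List ℕ} {v q : ℕ} {R : List ℕ} {y : ℕ} :
    y ∈ sieve A v q R ↔ y ∈ A ∧ (y = v ∨ y % q ∈ R) := by
  unfold sieve
  simp [List.mem_filter]

theorem complete0 {d : ℕ} {x : Inst} {s : St} (hI : Inv x s) (hs : Sem d x s)
    (h0 : s.1 = 0) (hna : accept d x s = false) : ∃ t ∈ children d x s, Sem d x t := by
  classical
  obtain ⟨m, A, k, Q0⟩ := s
  simp only at h0
  subst h0
  obtain ⟨-, hsub, hk, -⟩ := hI
  simp only at hsub hk
  unfold Sem at hs
  simp only [if_true] at hs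
  obtain ⟨S, hSc, hSg⟩ := hs
  -- the vertex `v`
  have hbne : bad x.2.1 d A ≠ [] := by
    intro h
    unfold accept at hna
    simp [h] at hna
  obtain ⟨v, l, hvl⟩ : ∃ v l, bad x.2.1 d A = v :: l := by
    cases hb : bad x.2.1 d A with
    | nil => exact absurd hb hbne
    | cons v l => exact ⟨v, l, rfl⟩
  have hvb : v ∈ bad x.2.1 d A := by rw [hvl]; exact List.mem_cons_self
  obtain ⟨hvA, hvng⟩ := mem_bad.1 hvb
  -- the budget is positive
  have hk0 : k ≠ 0 := by
    intro hk0
    apply hbne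
    rw [bad_eq_nil_iff]
    rw [hk0, Nat.le_zero, Finset.card_eq_zero] at hSc
    rw [hSc] at hSg
    simpa using hSg
  have hch : children d x (0, A, k, Q0) = branch0 d x A k v := by
    unfold children
    simp only [if_true]
    rw [if_neg hk0, hvl]
  rw [hch]
  by_cases hvS : v ∈ S
  · -- delete `v`
    refine ⟨(0, del A v, k - 1, []), by unfold branch0; exact List.mem_cons_self, ?_⟩
    unfold Sem
    simp only [if_true]
    refine ⟨S.erase v, ?_, ?_⟩
    · rw [Finset.card_erase_of_mem hvS]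
      exact Nat.sub_le_sub_right hSc 1
    · have : st (del A v) \ ((S.erase v : Finset ℕ) : Set ℕ) = st A \ (S : Set ℕ) := by
        ext y
        simp only [st, Set.mem_diff, Set.mem_setOf_eq, mem_del, Finset.coe_erase,
          Set.mem_singleton_iff, not_and, not_not, Finset.mem_coe]
        constructor
        · rintro ⟨⟨h1, h2⟩, h3⟩
          exact ⟨h1, fun h => h2 (h3 h)⟩
        · rintro ⟨h1, h2⟩
          exact ⟨⟨h1, fun h => h2 (h ▸ hvS)⟩, fun h => absurd h h2⟩
      rw [this]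
      exact hSg
  · -- guess a connected dominating set of the component of `v`
    have hvAS : v ∈ st A \ (S : Set ℕ) := ⟨hvA, hvS⟩
    obtain ⟨F, hFc, hvF, hFA, hFconn, hFdom⟩ := exists_connected_dominating hvAS (hSg v hvAS)
    have hlt : ∀ y ∈ A, y < x.1 := fun y hy => List.mem_range.1 (hsub.subset hy)
    set Z : Finset ℕ := (S.filter (fun y => y ∈ A)) ∪ F with hZ
    have hZlt : ∀ z ∈ Z, z < x.1 := by
      intro z hz
      rw [hZ, Finset.mem_union, Finset.mem_filter] at hz
      rcases hz with hz | hz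
      · exact hlt z hz.2
      · exact hlt z (hFA z hz).1
    have hZc : Z.card ≤ x.2.2 + (3 * d + 1) := by
      calc Z.card ≤ (S.filter (fun y => y ∈ A)).card + F.card := Finset.card_union_le _ _
        _ ≤ S.card + F.card := Nat.add_le_add_right (Finset.card_filter_le _ _) _
        _ ≤ x.2.2 + (3 * d + 1) := by omega
    obtain ⟨q, hqM, hq0, hqinj⟩ := exists_modulus x.1 Z hZlt _ hZc
    obtain ⟨R, hRt, hR1, hR2⟩ := c0_residues hFc hvF hq0
    set U := sieve A v q R with hU
    have hvU : v ∈ U := c0_mem_sieve.2 ⟨hvA, Or.inl rfl⟩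
    have hX : ∀ y ∈ [v], y ∈ U := by simpa using hvU
    have hFU : (F : Set ℕ) ⊆ st U := fun f hf =>
      c0_mem_sieve.2 ⟨(hFA f hf).1, Or.inr (hR1 f hf)⟩
    have hUS : ∀ y ∈ U, y ∈ A ∧ y ∉ S := by
      intro y hy
      obtain ⟨hyA, hy2⟩ := c0_mem_sieve.1 hy
      refine ⟨hyA, fun hyS => ?_⟩
      rcases hy2 with rfl | hy2
      · exact hvS hyS
      · obtain ⟨f, hf, hfq⟩ := hR2 _ hy2
        have h1 : y ∈ Z := by
          rw [hZ, Finset.mem_union, Finset.mem_filter]
          exact Or.inl ⟨hyS, hyA⟩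
        have h2 : f ∈ Z := by
          rw [hZ, Finset.mem_union]
          exact Or.inr hf
        have h3 : y = f := hqinj y h1 f h2 hfq.symm
        exact (hFA f hf).2 (by rw [← h3]; exact hyS)
    have hQmem : ∀ y, y ∈ comp x.2.1 U [v] ↔ Conn x.2.1 (st U) v y := by
      intro y
      rw [mem_comp hX]
      simp
    have hFQ : ∀ f ∈ F, f ∈ comp x.2.1 U [v] := fun f hf =>
      (hQmem f).2 (c0_conn_mono hFU (hFconn f hf))
    refine ⟨(1, A, k, comp x.2.1 U [v]), ?_, ?_⟩
    · unfold branch0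
      refine List.mem_cons_of_mem _ ?_
      rw [List.mem_flatMap]
      refine ⟨q, List.mem_range.2 ?_, List.mem_map.2 ⟨R, hRt, rfl⟩⟩
      exact hqM
    · unfold Sem
      simp only [one_ne_zero, if_false]
      refine ⟨S, hSc, hSg, ?_, v, hFQ v hvF, ?_, ?_, fun _ => hvng⟩
      · intro y hy
        exact hUS y (c0_conn_mem ((hQmem y).1 hy) hvU)
      · intro y hy
        exact c0_conn_comp hvU ((hQmem y).1 hy)
      · intro y hy
        obtain ⟨f, hf, hfy⟩ := hFdom y hy
        rw [dom_iff]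
        exact ⟨f, hFQ f hf, hfy⟩

end Pool.Agent.W_MP_3feab3_lc
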