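import Pool.Agent.W_MP_3feab3_lc.Sem1

/-! Completeness of the branching rules in modes `1` and `2`. -/

set_option autoImplicit false

namespace Pool.Agent.W_MP_3feab3_lc

namespace C1

theorem conn_mono {E : List (ℕ × ℕ)} {A B : Set ℕ} (h : A ⊆ B) {u v : ℕ} (hc : Conn E A u v) :
    Conn E B u v := by
  induction hc with
  | refl => exact Relation.ReflTransGen.refl
  | tail _ h1 ih => exact Relation.ReflTransGen.tail ih ⟨h h1.1, h1.2⟩

theorem conn_step {E : List (ℕ × ℕ)} {A : Set ℕ} {u v w : ℕ} (hc : Conn E A u v)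
    (hw : w ∈ A) (ha : adj E v w = true) : Conn E A u w :=
  Relation.ReflTransGen.tail hc ⟨hw, ha⟩

theorem conn_mem {E : List (ℕ × ℕ)} {A : Set ℕ} {u v : ℕ} (hc : Conn E A u v) (hu : u ∈ A) :
    v ∈ A := by
  induction hc with
  | refl => exact hu
  | tail _ h _ => exact h.1

/-- deleting a vertex of the solution -/
theorem sem_del {d : ℕ} {x : Inst} {A Q : List ℕ} {k v a : ℕ} {S : Finset ℕ}
    (hcard : S.card ≤ k) (hgood : Good x.2.1 d (st A \ (S : Set ℕ)))
    (hQ : ∀ q ∈ Q, q ∈ A ∧ q ∉ S) (hv : v ∈ Q) (hconn : ∀ q ∈ Q, Conn x.2.1 (st Q) v q)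
    (hdom : ∀ y, Conn x.2.1 (st A \ (S : Set ℕ)) v y → dom x.2.1 Q y = true)
    (ha : a ∈ S) : Sem d x (2, del A a, k - 1, Q) := by
  have hset : st (del A a) \ ((S.erase a : Finset ℕ) : Set ℕ) = st A \ (S : Set ℕ) := by
    ext y
    simp only [st, Set.mem_sdiff, Set.mem_ofPred_eq, mem_del, Finset.mem_coe, Finset.mem_erase,
      not_and]
    constructor
    · rintro ⟨⟨h1, h2⟩, h3⟩
      exact ⟨h1, h3 h2⟩
    · rintro ⟨h1, h2⟩
      refine ⟨⟨h1, ?_⟩, fun _ => h2⟩
      rintro rfl
      exact h2 ha
  unfold Sem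
  rw [if_neg (by norm_num)]
  refine ⟨S.erase a, ?_, ?_, ?_, v, hv, hconn, ?_, ?_⟩
  · rw [Finset.card_erase_of_mem ha]
    change S.card - 1 ≤ k - 1
    omega
  · change Good x.2.1 d (st (del A a) \ ((S.erase a : Finset ℕ) : Set ℕ))
    rw [hset]
    exact hgood
  · intro q hq
    refine ⟨mem_del.2 ⟨(hQ q hq).1, ?_⟩, fun h => (hQ q hq).2 (Finset.mem_of_mem_erase h)⟩
    rintro rfl
    exact (hQ q hq).2 ha
  · intro y hy
    change Conn x.2.1 (st (del A a) \ ((S.erase a : Finset ℕ) : Set ℕ)) v y at hy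
    rw [hset] at hy
    exact hdom y hy
  · intro h
    exact absurd h (by norm_num)

/-- a nonempty finite set with at most `d` elements is the set of entries of a list of
length `d` -/
theorem exists_tuple {d : ℕ} {N : List ℕ} {D : Finset ℕ} (hD : D.card ≤ d) (hne : D.Nonempty)
    (hDN : ∀ a ∈ D, a ∈ N) : ∃ t ∈ tups d N, (∀ a ∈ D, a ∈ t) ∧ ∀ a ∈ t, a ∈ D := by
  obtain ⟨a0, ha0⟩ := hne
  refine ⟨D.toList ++ List.replicate (d - D.card) a0, ?_, ?_, ?_⟩
  · rw [mem_tups]
    constructor
    · rw [List.length_append, Finset.length_toList, List.length_replicate]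
      omega
    · intro a ha
      rw [List.mem_append] at ha
      rcases ha with ha | ha
      · exact hDN a (Finset.mem_toList.1 ha)
      · rw [List.eq_of_mem_replicate ha]
        exact hDN a0 ha0
  · intro a ha
    exact List.mem_append.2 (Or.inl (Finset.mem_toList.2 ha))
  · intro a ha
    rw [List.mem_append] at ha
    rcases ha with ha | ha
    · exact Finset.mem_toList.1 ha
    · rw [List.eq_of_mem_replicate ha]
      exact ha0

theorem not_adj_of_crossing {E : List (ℕ × ℕ)} {N O : List ℕ} (h : crossing E N O = [])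
    {a b : ℕ} (ha : a ∈ N) (hb : b ∈ O) : adj E a b ≠ true := by
  intro hab
  have : (a, b) ∈ crossing E N O := mem_crossing.2 ⟨ha, hb, hab⟩
  rw [h] at this
  exact absurd this (List.not_mem_nil)

theorem nodup_of_sub {A : List ℕ} {n : ℕ} (h : A.Sublist (List.range n)) : A.Nodup :=
  List.nodup_range.sublist h

theorem cl_sub (E : List (ℕ × ℕ)) (A X : List ℕ) : (cl E A X).Sublist A := List.filter_sublist

theorem und_sub (E : List (ℕ × ℕ)) (A X : List ℕ) : (und E A X).Sublist A := List.filter_sublist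

theorem cl_or_und {E : List (ℕ × ℕ)} {A X : List ℕ} {y : ℕ} (hy : y ∈ A) :
    y ∈ cl E A X ∨ y ∈ und E A X := by
  cases h : dom E X y with
  | true => exact Or.inl (mem_cl.2 ⟨hy, h⟩)
  | false => exact Or.inr (mem_und.2 ⟨hy, h⟩)

end C1

open C1

theorem complete1 {d : ℕ} {x : Inst} {s : St} (hI : Inv x s) (hs : Sem d x s)
    (h0 : s.1 ≠ 0) : ∃ t ∈ children d x s, Sem d x t := by
  obtain ⟨n, E, k0⟩ := x
  obtain ⟨m, A, k, Q⟩ := s
  obtain ⟨hm, hA, hk, hQr⟩ := hI
  simp only at hm hA hk hQr h0
  unfold Sem at hs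
  simp only [if_neg h0] at hs
  obtain ⟨S, hcard, hgood, hQ, v, hv, hconn, hdom, hm1⟩ := hs
  have hQsub : st Q ⊆ st A \ (S : Set ℕ) := fun q hq => ⟨(hQ q hq).1, (hQ q hq).2⟩
  have F1 : ∀ q ∈ Q, Conn E (st A \ (S : Set ℕ)) v q := fun q hq => conn_mono hQsub (hconn q hq)
  have F2 : ∀ y ∈ cl E A Q, y ∉ S → Conn E (st A \ (S : Set ℕ)) v y := by
    intro y hy hyS
    obtain ⟨hyA, hyd⟩ := mem_cl.1 hy
    obtain ⟨q, hq, hqy⟩ := dom_iff.1 hyd
    rcases hqy with rfl | hqy
    · exact F1 q hq
    · exact conn_step (F1 q hq) ⟨hyA, hyS⟩ hqy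
  have hvmem : v ∈ st A \ (S : Set ℕ) := hQsub hv
  have F3 : ∀ y, Conn E (st A \ (S : Set ℕ)) v y → y ∈ cl E A Q ∧ y ∉ S := by
    intro y hy
    have h1 := conn_mem hy hvmem
    exact ⟨mem_cl.2 ⟨h1.1, hdom y hy⟩, h1.2⟩
  cases hcr : crossing E (cl E A Q) (und E A Q) with
  | cons e es =>
    have he : e ∈ crossing E (cl E A Q) (und E A Q) := by
      rw [hcr]; exact List.mem_cons_self
    obtain ⟨ha, hb, hab⟩ := mem_crossing.1 he
    have hor : e.1 ∈ S ∨ e.2 ∈ S := by
      by_contra hno
      push Not at hno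
      have h1 := F2 e.1 ha hno.1
      have h2 : Conn E (st A \ (S : Set ℕ)) v e.2 :=
        conn_step h1 ⟨(mem_und.1 hb).1, hno.2⟩ hab
      have h3 := hdom _ h2
      rw [(mem_und.1 hb).2] at h3
      exact absurd h3 (by decide)
    have hk0 : k ≠ 0 := by
      rintro rfl
      have : S = ∅ := Finset.card_eq_zero.1 (Nat.le_zero.1 hcard)
      subst this
      simp at hor
    have hch : children d (n, E, k0) (m, A, k, Q)
        = [(2, del A e.1, k - 1, Q), (2, del A e.2, k - 1, Q)] := by
      unfold children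
      simp only [if_neg h0, hcr, if_neg hk0]
    rw [hch]
    rcases hor with h | h
    · exact ⟨_, List.mem_cons_self, sem_del (x := (n, E, k0)) hcard hgood hQ hv hconn hdom h⟩
    · exact ⟨_, List.mem_cons_of_mem _ List.mem_cons_self,
        sem_del (x := (n, E, k0)) hcard hgood hQ hv hconn hdom h⟩
  | nil =>
    have hnodN : (cl E A Q).Nodup := nodup_of_sub ((cl_sub E A Q).trans hA)
    -- a good set of dominators of the component of `v`
    obtain ⟨D, hDd, hDc, hDdom⟩ := hgood v hvmem
    have hDne : D.Nonempty := by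
      obtain ⟨z, hz, _⟩ := hDdom v Relation.ReflTransGen.refl
      exact ⟨z, hz⟩
    obtain ⟨t0, ht0, hDt, htD⟩ := exists_tuple (N := cl E A Q) hDd hDne
      (fun a ha => (F3 a (hDc a ha)).1)
    set c : ℕ := (S.filter (fun y => y ∈ cl E A Q)).card with hc
    have hcS : c ≤ S.card := Finset.card_filter_le _ _
    have hlen : (und E (cl E A Q) t0).length ≤ c := by
      have hnd : (und E (cl E A Q) t0).Nodup := hnodN.sublist (und_sub _ _ _)
      rw [← List.toFinset_card_of_nodup hnd, hc]
      refine Finset.card_le_card fun y hy => ?_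
      rw [List.mem_toFinset, mem_und] at hy
      rw [Finset.mem_filter]
      refine ⟨?_, hy.1⟩
      by_contra hyS
      obtain ⟨z, hz, hzy⟩ := hDdom y (F2 y hy.1 hyS)
      have : dom E t0 y = true := dom_iff.2 ⟨z, hDt z hz, hzy⟩
      rw [hy.2] at this
      exact absurd this (by decide)
    have hfc : feas E d (cl E A Q) c = true := feas_iff.2 ⟨t0, ht0, hlen⟩
    have hfk : feas E d (cl E A Q) k = true :=
      feas_iff.2 ⟨t0, ht0, hlen.trans (hcS.trans hcard)⟩
    have hbud : k ≤ c + budget E d (cl E A Q) k := budget_complete (hcS.trans hcard) hfc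
    -- the exceptional case does not occur
    have hexc : ¬ (m = 1 ∧ budget E d (cl E A Q) k = k) := by
      rintro ⟨hm1', hbk⟩
      have h1 := budget_sound hfk
      rw [hbk, Nat.sub_self] at h1
      obtain ⟨D0, hD0, hD0l⟩ := feas_iff.1 h1
      have hD0n : und E (cl E A Q) D0 = [] := List.length_eq_zero_iff.1 (Nat.le_zero.1 hD0l)
      refine hm1 hm1' ⟨D0.toFinset, ?_, ?_, ?_⟩
      · exact (List.toFinset_card_le _).trans (mem_tups.1 hD0).1.le
      · intro z hz
        rw [List.mem_toFinset] at hz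
        have hzN := (mem_tups.1 hD0).2 z hz
        obtain ⟨hzA, hzd⟩ := mem_cl.1 hzN
        obtain ⟨q, hq, hqz⟩ := dom_iff.1 hzd
        have hcq : Conn E (st A) v q := conn_mono (fun q hq => (hQ q hq).1) (hconn q hq)
        rcases hqz with rfl | hqz
        · exact hcq
        · exact conn_step hcq hzA hqz
      · have hN : ∀ y, Conn E (st A) v y → y ∈ cl E A Q := by
          intro y hy
          induction hy with
          | refl => exact mem_cl.2 ⟨(hQ v hv).1, dom_iff.2 ⟨v, hv, Or.inl rfl⟩⟩
          | tail _ h ih =>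
            rcases cl_or_und (E := E) (X := Q) h.1 with h2 | h2
            · exact h2
            · exact absurd h.2 (not_adj_of_crossing hcr ih h2)
        intro y hy
        have hyN := hN y hy
        have : dom E D0 y = true := by
          by_contra hne
          have h2 : y ∈ und E (cl E A Q) D0 :=
            mem_und.2 ⟨hyN, by simpa using hne⟩
          rw [hD0n] at h2
          exact absurd h2 (List.not_mem_nil)
        obtain ⟨z, hz, hzy⟩ := dom_iff.1 this
        exact ⟨z, List.mem_toFinset.2 hz, hzy⟩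
    have hch : children d (n, E, k0) (m, A, k, Q)
        = [(0, und E A Q, budget E d (cl E A Q) k, [])] := by
      unfold children
      simp only [if_neg h0, hcr, finish, hfk, if_true, if_neg hexc]
    rw [hch]
    refine ⟨_, List.mem_cons_self, ?_⟩
    unfold Sem
    rw [if_pos rfl]
    refine ⟨S.filter (fun y => y ∈ und E A Q), ?_, ?_⟩
    · change (S.filter (fun y => y ∈ und E A Q)).card ≤ budget E d (cl E A Q) k
      have hdisj : Disjoint (S.filter (fun y => y ∈ cl E A Q))
          (S.filter (fun y => y ∈ und E A Q)) := by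
        rw [Finset.disjoint_left]
        intro y hy1 hy2
        rw [Finset.mem_filter] at hy1 hy2
        have h1 := (mem_cl.1 hy1.2).2
        rw [(mem_und.1 hy2.2).2] at h1
        exact absurd h1 (by decide)
      have hle : (S.filter (fun y => y ∈ cl E A Q)).card
          + (S.filter (fun y => y ∈ und E A Q)).card ≤ S.card := by
        rw [← Finset.card_union_of_disjoint hdisj]
        refine Finset.card_le_card fun y hy => ?_
        rw [Finset.mem_union, Finset.mem_filter, Finset.mem_filter] at hy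
        rcases hy with hy | hy
        · exact hy.1
        · exact hy.1
      omega
    · change Good E d (st (und E A Q) \ ((S.filter (fun y => y ∈ und E A Q) : Finset ℕ) : Set ℕ))
      set B : Set ℕ := st (und E A Q) \ ((S.filter (fun y => y ∈ und E A Q) : Finset ℕ) : Set ℕ)
        with hB
      have hBsub : B ⊆ st A \ (S : Set ℕ) := by
        rintro y ⟨hy1, hy2⟩
        refine ⟨(mem_und.1 hy1).1, fun hyS => hy2 ?_⟩
        simp only [Finset.coe_filter, Set.mem_ofPred_eq]
        exact ⟨hyS, hy1⟩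
      intro w hw
      obtain ⟨D', hD'd, hD'c, hD'dom⟩ := hgood w (hBsub hw)
      have hback : ∀ y, Conn E (st A \ (S : Set ℕ)) w y → y ∈ B ∧ Conn E B w y := by
        intro y hy
        induction hy with
        | refl => exact ⟨hw, Relation.ReflTransGen.refl⟩
        | @tail b c' _ h ih =>
          have hc'B : c' ∈ B := by
            rcases cl_or_und (E := E) (X := Q) h.1.1 with h2 | h2
            · have h3 : adj E c' b = true := by rw [adj_comm]; exact h.2
              exact absurd h3 (not_adj_of_crossing hcr h2 ih.1.1)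
            · refine ⟨h2, ?_⟩
              simp only [Finset.coe_filter, Set.mem_ofPred_eq, not_and]
              intro h3
              exact absurd h3 h.1.2
          exact ⟨hc'B, conn_step ih.2 hc'B h.2⟩
      exact ⟨D', hD'd, fun z hz => (hback z (hD'c z hz)).2,
        fun y hy => hD'dom y (conn_mono hBsub hy)⟩

end Pool.Agent.W_MP_3feab3_lc
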