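import Mathlib

/-!
Vertex deletion into components of domination number at most `d`: the problem, the algorithm, and
the predicates used in its analysis.
-/

set_option autoImplicit false

namespace Pool.Agent.W_MP_3feab3_lc

/-! ### The problem -/

/-- The graph on `Fin n` whose edges are the pairs of different vertices listed in `E`. -/
def listGraph (n : ℕ) (E : List (ℕ × ℕ)) : SimpleGraph (Fin n) :=
  SimpleGraph.fromRel (fun i j => ((i : ℕ), (j : ℕ)) ∈ E)

/-- The domination number of `H` is at most `d`. -/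
def DomLE {V : Type} (H : SimpleGraph V) (d : ℕ) : Prop :=
  ∃ D : Finset V, D.card ≤ d ∧ ∀ v, v ∈ D ∨ ∃ u ∈ D, H.Adj u v

/-- There is a set of at most `k` vertices whose deletion leaves only connected components of
domination number at most `d`. -/
def Solvable (d : ℕ) {V : Type} (G : SimpleGraph V) (k : ℕ) : Prop :=
  ∃ S : Finset V, S.card ≤ k ∧
    ∀ C : (G.induce {v | v ∉ S}).ConnectedComponent, DomLE C.toSimpleGraph d

/-! ### The algorithm -/

/-- An instance: number of vertices, list of edges, parameter. -/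
abbrev Inst : Type := ℕ × (List (ℕ × ℕ) × ℕ)

/-- A state of the branching algorithm: mode, remaining vertices, remaining budget, and (in modes
`1`, `2`) a set of vertices which is not to be deleted. Mode `0`: nothing special. Mode `1`: a
set has just been chosen. Mode `2`: a set has been chosen and a vertex deleted since. -/
abbrev St : Type := ℕ × (List ℕ × (ℕ × List ℕ))

/-- adjacency in the listed graph -/
def adj (E : List (ℕ × ℕ)) (x y : ℕ) : Bool :=
  !decide (x = y) && E.any (fun e => (decide (e.1 = x) && decide (e.2 = y)) ||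
    (decide (e.1 = y) && decide (e.2 = x)))

/-- `y` is in `X` or adjacent to a member of `X` -/
def dom (E : List (ℕ × ℕ)) (X : List ℕ) (y : ℕ) : Bool :=
  X.any (fun x => decide (x = y) || adj E x y)

/-- the members of `A` dominated by `X` -/
def cl (E : List (ℕ × ℕ)) (A X : List ℕ) : List ℕ := A.filter (fun y => dom E X y)

/-- the members of `A` not dominated by `X` -/
def und (E : List (ℕ × ℕ)) (A X : List ℕ) : List ℕ := A.filter (fun y => !dom E X y)

/-- the members of `A` reachable from `X` inside `A` -/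
def comp (E : List (ℕ × ℕ)) (A X : List ℕ) : List ℕ := (fun Y => cl E A Y)^[A.length] X

/-- all lists of length `d` with entries in `l` -/
def tups : ℕ → List ℕ → List (List ℕ)
  | 0, _ => [[]]
  | d + 1, l => (tups d l).flatMap (fun t => l.map (fun a => a :: t))

/-- `d` members of `C` dominate `C` -/
def compOK (E : List (ℕ × ℕ)) (d : ℕ) (C : List ℕ) : Bool :=
  (tups d C).any (fun D => (und E C D).isEmpty)

/-- the vertices of `A` whose component in `A` has domination number larger than `d` -/
def bad (E : List (ℕ × ℕ)) (d : ℕ) (A : List ℕ) : List ℕ :=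
  A.filter (fun v => !compOK E d (comp E A [v]))

/-- `v` and the members of `A` with residue modulo `q` in `R` -/
def sieve (A : List ℕ) (v q : ℕ) (R : List ℕ) : List ℕ :=
  A.filter (fun x => decide (x = v) || R.any (fun r => decide (x % q = r)))

/-- the bound for the moduli -/
def modBound (d n k : ℕ) : ℕ := 2 * ((Nat.log 2 n + 1) * (k + (3 * d + 1)) ^ 2 + 1) + 1

/-- remove a vertex -/
def del (A : List ℕ) (v : ℕ) : List ℕ := A.filter (fun y => !decide (y = v))

/-- the edges between `N` and `O` -/
def crossing (E : List (ℕ × ℕ)) (N O : List ℕ) : List (ℕ × ℕ) :=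
  N.flatMap (fun x => (O.filter (fun y => adj E x y)).map (fun y => (x, y)))

/-- some `d` members of `N` dominate all but at most `k` members of `N` -/
def feas (E : List (ℕ × ℕ)) (d : ℕ) (N : List ℕ) (k : ℕ) : Bool :=
  (tups d N).any (fun D => decide ((und E N D).length ≤ k))

/-- the budget that remains when `N` is solved in the best way -/
def budget (E : List (ℕ × ℕ)) (d : ℕ) (N : List ℕ) (k : ℕ) : ℕ :=
  ((List.range k).filter (fun j => feas E d N (k - (j + 1)))).length

/-- the successors of a state in mode `0` for the chosen vertex `v` -/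
def branch0 (d : ℕ) (x : Inst) (A : List ℕ) (k v : ℕ) : List St :=
  (0, del A v, k - 1, []) ::
    (List.range (modBound d x.1 x.2.2)).flatMap (fun q =>
      (tups (3 * d + 1) (List.range q)).map (fun R =>
        (1, A, k, comp x.2.1 (sieve A v q R) [v])))

/-- the successors of a state in mode `1` or `2` when no edge leaves `N[Q]` -/
def finish (d : ℕ) (E : List (ℕ × ℕ)) (m : ℕ) (A : List ℕ) (k : ℕ) (Q : List ℕ) : List St :=
  if feas E d (cl E A Q) k = true then
    (if m = 1 ∧ budget E d (cl E A Q) k = k then []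
      else [(0, und E A Q, budget E d (cl E A Q) k, [])])
  else []

/-- the successors of a state -/
def children (d : ℕ) (x : Inst) (s : St) : List St :=
  if s.1 = 0 then
    (if s.2.2.1 = 0 then []
      else match bad x.2.1 d s.2.1 with
        | [] => []
        | v :: _ => branch0 d x s.2.1 s.2.2.1 v)
  else
    match crossing x.2.1 (cl x.2.1 s.2.1 s.2.2.2) (und x.2.1 s.2.1 s.2.2.2) with
      | [] => finish d x.2.1 s.1 s.2.1 s.2.2.1 s.2.2.2
      | e :: _ => if s.2.2.1 = 0 then []
          else [(2, del s.2.1 e.1, s.2.2.1 - 1, s.2.2.2), (2, del s.2.1 e.2, s.2.2.1 - 1, s.2.2.2)]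

/-- success -/
def accept (d : ℕ) (x : Inst) (s : St) : Bool :=
  decide (s.1 = 0) && (bad x.2.1 d s.2.1).isEmpty

/-- the initial state -/
def init (x : Inst) : St := (0, List.range x.1, x.2.2, [])

/-- `t` is reachable from `s` in the branching algorithm -/
def Reach (d : ℕ) (x : Inst) (s t : St) : Prop :=
  Relation.ReflTransGen (fun a b => b ∈ children d x a) s t

/-- the rank of a state; it decreases along `children` -/
def rank (s : St) : ℕ :=
  if s.1 = 0 then 3 * s.2.2.1 + 1 else if s.1 = 1 then 3 * s.2.2.1 else 3 * s.2.2.1 + 2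

/-! ### Semantics on the natural numbers -/

/-- `v` is reachable from `u` by a walk all of whose vertices, except possibly `u`, are in `A` -/
def Conn (E : List (ℕ × ℕ)) (A : Set ℕ) (u v : ℕ) : Prop :=
  Relation.ReflTransGen (fun x y => y ∈ A ∧ adj E x y = true) u v

/-- the component of `v` in `A` has domination number at most `d` -/
def GoodAt (E : List (ℕ × ℕ)) (d : ℕ) (A : Set ℕ) (v : ℕ) : Prop :=
  ∃ D : Finset ℕ, D.card ≤ d ∧ (∀ x ∈ D, Conn E A v x) ∧
    ∀ y, Conn E A v y → ∃ x ∈ D, x = y ∨ adj E x y = true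

/-- all components of `A` have domination number at most `d` -/
def Good (E : List (ℕ × ℕ)) (d : ℕ) (A : Set ℕ) : Prop := ∀ v ∈ A, GoodAt E d A v

/-- `A` can be made good by deleting at most `k` vertices -/
def YesN (E : List (ℕ × ℕ)) (d : ℕ) (A : Set ℕ) (k : ℕ) : Prop :=
  ∃ S : Finset ℕ, S.card ≤ k ∧ Good E d (A \ (S : Set ℕ))

/-- the set of members of a list -/
def st (A : List ℕ) : Set ℕ := {a | a ∈ A}

/-- The invariant of completeness for states. -/
def Sem (d : ℕ) (x : Inst) (s : St) : Prop :=
  if s.1 = 0 then YesN x.2.1 d (st s.2.1) s.2.2.1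
  else ∃ S : Finset ℕ, S.card ≤ s.2.2.1 ∧ Good x.2.1 d (st s.2.1 \ (S : Set ℕ)) ∧
    (∀ q ∈ s.2.2.2, q ∈ s.2.1 ∧ q ∉ S) ∧
    ∃ v ∈ s.2.2.2, (∀ q ∈ s.2.2.2, Conn x.2.1 (st s.2.2.2) v q) ∧
      (∀ y, Conn x.2.1 (st s.2.1 \ (S : Set ℕ)) v y → dom x.2.1 s.2.2.2 y = true) ∧
      (s.1 = 1 → ¬ GoodAt x.2.1 d (st s.2.1) v)

/-- The invariant of states. -/
def Inv (x : Inst) (s : St) : Prop :=
  s.1 ≤ 2 ∧ s.2.1.Sublist (List.range x.1) ∧ s.2.2.1 ≤ x.2.2 ∧
    s.2.2.2.Sublist (List.range x.1)

end Pool.Agent.W_MP_3feab3_lc
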