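import Pool.Agent.PolyTime.Lists

/-! A machine model of time bounds depending on the input, and branching algorithms. -/

set_option autoImplicit false
set_option linter.unusedSimpArgs false

namespace Pool.Agent.W_MP_3feab3_lc

open Turing Function Pool.Agent.PolyTime

/-- `f` is computed by a Turing machine which on input `a` halts within `T a` steps. -/
def Timed {α β αΓ βΓ : Type} (ea : α → List αΓ) (eb : β → List βΓ) (f : α → β)
    (T : α → ℕ) : Prop :=
  ∃ (tm : FinTM2) (ein : tm.Γ tm.k₀ ≃ αΓ) (eout : tm.Γ tm.k₁ ≃ βΓ), ∀ a,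
    Nonempty (TM2OutputsInTime tm ((ea a).map ein.invFun)
      (some ((eb (f a)).map eout.invFun)) (T a))

/-- A Turing machine maps the words `inp a` to the words `out a` within `T a` steps. -/
def TimedR {α : Type} (inp out : α → List Bool) (T : α → ℕ) : Prop :=
  ∃ (tm : FinTM2) (ein : tm.Γ tm.k₀ ≃ Bool) (eout : tm.Γ tm.k₁ ≃ Bool), ∀ a,
    Nonempty (TM2OutputsInTime tm ((inp a).map ein.invFun) (some ((out a).map eout.invFun)) (T a))

theorem TimedR.mono {α : Type} {inp out : α → List Bool} {T T' : α → ℕ} (h : TimedR inp out T)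
    (hT : ∀ a, T a ≤ T' a) : TimedR inp out T' := by
  obtain ⟨tm, ein, eout, h⟩ := h
  refine ⟨tm, ein, eout, fun a => ?_⟩
  obtain ⟨h⟩ := h a
  exact ⟨⟨⟨h.steps, h.evals_in_steps⟩, h.steps_le_m.trans (hT a)⟩⟩

theorem TimedR.ofPoly {α β : Type} {ea : α → List Bool} {eb : β → List Bool} {f : α → β}
    (h : TM2ComputableInPolyTime ea eb f) {δ : Type} (i : δ → α) :
    TimedR (fun x => ea (i x)) (fun x => eb (f (i x))) (fun x => h.time.eval (ea (i x)).length) :=
  ⟨h.tm, h.inputAlphabet, h.outputAlphabet, fun a => ⟨h.outputsFun (i a)⟩⟩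

section

variable {ι : Type} [DecidableEq ι] {tm : ι → FinTM2}

theorem TimedR.ofDoes5 [Fintype ι] {α : Type} {inp out : α → List Bool}
    (c : Cmd tm BΓ (Reg BΓ)) (T : α → ℕ)
    (h : ∀ a, Does c (T a) (PolyTime.st (inp a) [] [] [] []) (PolyTime.st [] [] [] [] (out a))) :
    TimedR inp out (fun a => T a + 1) := by
  refine ⟨machine c K5.a K5.e (fun _ => none), Equiv.refl Bool, Equiv.refl Bool, fun a => ?_⟩
  obtain ⟨q', n, hn, hr⟩ := h a (fun _ => none)
  have h1 := sim (machine c K5.a K5.e (fun _ => none)).m hr some none (fun l => rfl)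
  have e1 : (update (fun _ => []) .a ((inp a).map (Equiv.refl Bool).symm) :
      ∀ k, List (BΓ k)) = PolyTime.st (inp a) [] [] [] [] := by
    rw [st_nil]
    simp
  have e2 : (update (fun _ => []) .e ((out a).map (Equiv.refl Bool).symm) :
      ∀ k, List (BΓ k)) = PolyTime.st [] [] [] [] (out a) := by
    rw [st_nil]
    simp
  rw [← e1, ← e2] at h1
  have h2 : Steps (machine c K5.a K5.e (fun _ => none)).step n
      (initList (machine c K5.a K5.e (fun _ => none)) ((inp a).map (Equiv.refl Bool).invFun))
      (cfg none q' (update (fun _ => []) K5.e ((out a).map (Equiv.refl Bool).symm))) := by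
    rw [initList_eq]
    have e1 : (⟨some (machine c K5.a K5.e (fun _ => none)).main,
        (machine c K5.a K5.e (fun _ => none)).initialState,
        update (fun _ => []) (machine c K5.a K5.e (fun _ => none)).k₀
          ((inp a).map (Equiv.refl Bool).invFun)⟩ :
          (machine c K5.a K5.e (fun _ => none)).Cfg) =
        cfg (some (start c)) (fun _ => none)
          (update (fun _ => []) K5.a ((inp a).map (Equiv.refl Bool).symm)) := by
      unfold cfg
      rw [mkS_single]
      rfl
    rw [e1]
    exact h1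
  have h3 : Steps (machine c K5.a K5.e (fun _ => none)).step 1
      (cfg none q' (update (fun _ => []) K5.e ((out a).map (Equiv.refl Bool).symm)))
      (haltList (machine c K5.a K5.e (fun _ => none))
        ((out a).map (Equiv.refl Bool).invFun)) := by
    refine Steps.single ?_
    rw [haltList_eq]
    unfold cfg
    rw [mkS_single]
    rfl
  exact ⟨(h2.trans h3).toEvals (Nat.add_le_add_right hn 1)⟩

end

theorem map_invFun_map {A B : Type} (e : A ≃ B) (l : List B) :
    (l.map e.invFun).map e = l := by
  rw [List.map_map]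
  have : (⇑e ∘ e.invFun) = id := by
    funext b
    exact e.apply_symm_apply b
  rw [this, List.map_id]

theorem TimedR.comp {α : Type} {inp mid out : α → List Bool} {T1 T2 : α → ℕ}
    (hf : TimedR inp mid T1) (hg : TimedR mid out T2) :
    TimedR inp out (fun a => ((3 * (inp a).length + 2) +
      ((T1 a + (inp a).length + (mid a).length + 2) +
      ((T2 a + (mid a).length + (out a).length + 2) + (3 * (out a).length + 2)))) + 1) := by
  obtain ⟨M, ein, eout, hf⟩ := hf
  obtain ⟨N, fin, fout, hg⟩ := hg
  let prog : Cmd (tm2 M N) BΓ (Reg BΓ) :=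
    .seq (mv .a .b id) (.seq (.call false .b .c ein.symm eout)
      (.seq (.call true .c .d fin.symm fout) (mv .d .e id)))
  refine TimedR.ofDoes5 prog _ (fun a => ?_)
  obtain ⟨hfa⟩ := hf a
  obtain ⟨hga⟩ := hg a
  have s1 := mv_does (tm := tm2 M N) (Γ := BΓ) (a := K5.a) (b := K5.b) (by decide) id
    (PolyTime.st (inp a) [] [] [] [])
  have s2 := call_does (tm := tm2 M N) (Γ := BΓ) (Q := Reg BΓ) (i := false) (kin := K5.b)
    (kout := K5.c) (fin := ein.symm) (fout := eout) (N := T1 a)
    (S := PolyTime.st [] (inp a).reverse [] [] []) (inp a) (mid a) rfl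
    ⟨(mid a).map eout.invFun, map_invFun_map eout _, Steps.ofEvals hfa⟩
  have s3 := call_does (tm := tm2 M N) (Γ := BΓ) (Q := Reg BΓ) (i := true) (kin := K5.c)
    (kout := K5.d) (fin := fin.symm) (fout := fout) (N := T2 a)
    (S := PolyTime.st [] [] (mid a).reverse [] []) (mid a) (out a) rfl
    ⟨(out a).map fout.invFun, map_invFun_map fout _, Steps.ofEvals hga⟩
  have s4 := mv_does (tm := tm2 M N) (Γ := BΓ) (a := K5.d) (b := K5.e) (by decide) id
    (PolyTime.st [] [] [] (out a).reverse [])
  simp only [st_a, st_b, st_c, st_d, st_e, upd_a, upd_b, upd_c, upd_d, upd_e, List.map_id,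
    List.append_nil, List.length_reverse, List.reverse_reverse] at s1 s2 s3 s4
  exact s1.seq (s2.seq (s3.seq s4))

/-- While loops. -/
theorem TimedR.while {ι α : Type} {ea : α → List Bool} {p : α → Bool} {f : α → α}
    (hp : TM2ComputableInPolyTime ea Computability.encodeBool p)
    (hf : TM2ComputableInPolyTime ea ea f) (x0 : ι → α) (n L : ι → ℕ)
    (h1 : ∀ x, ∀ i < n x, p (f^[i] (x0 x)) = true) (h2 : ∀ x, p (f^[n x] (x0 x)) = false)
    (h3 : ∀ x, ∀ i ≤ n x, (ea (f^[i] (x0 x))).length ≤ L x) :
    TimedR (fun x => ea (x0 x)) (fun x => ea (f^[n x] (x0 x))) (fun x =>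
      (((4 * L x + 2) + ((hp.time.eval (L x) + L x + 1 + 2) + 1)) +
      ((n x * ((hf.time.eval (L x) + L x + L x + 2) + ((3 * L x + 2) +
        ((4 * L x + 2) + ((hp.time.eval (L x) + L x + 1 + 2) + 1))) + 1) + 1) +
        (3 * L x + 2))) + 1) := by
  let prog : Cmd (tm2 hp.tm hf.tm) BΓ (Reg BΓ) :=
    .seq (wTest hp hf) (.seq (wLoop hp hf) (mv .c .e id))
  refine TimedR.ofDoes5 prog _ ?_
  intro x q
  have l0 : (ea (x0 x)).length ≤ L x := h3 x 0 (by omega)
  obtain ⟨q1, hq1, s1⟩ := wTest_run hp hf (x0 x) (L x) l0 q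
  obtain ⟨q2, s2⟩ := wLoop_run hp hf (L x) (n x) (x0 x) (h1 x) (h2 x) (h3 x) q1 hq1
  obtain ⟨q3, s3⟩ := mv_does (tm := tm2 hp.tm hf.tm) (Γ := BΓ) (a := K5.c) (b := K5.e)
      (by decide) id (PolyTime.st [] [] (ea (f^[n x] (x0 x))).reverse [] []) q2
  simp only [st_a, st_b, st_c, st_d, st_e, upd_a, upd_b, upd_c, upd_d, upd_e, List.map_id,
      List.append_nil, List.length_reverse, List.reverse_reverse] at s3
  refine ⟨q3, (s1.seq (s2.seq s3)).mono ?_⟩
  have l1 : (ea (f^[n x] (x0 x))).length ≤ L x := h3 x (n x) le_rfl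
  omega


/-! ### Branching algorithms -/

section engine

variable {ι σ : Type} [ToD ι] [ToD σ] (children : ι → σ → List σ) (accept : ι → σ → Bool)

/-- the loop body: treat the first state of the stack -/
def eStep (w : ι × (List σ × Bool)) : ι × (List σ × Bool) :=
  match w.2.1 with
  | [] => w
  | s :: rest => if accept w.1 s = true then (w.1, ([], true))
      else (w.1, (children w.1 s ++ rest, w.2.2))

/-- the loop test: the stack is nonempty -/
def eTest (w : ι × (List σ × Bool)) : Bool := !w.2.1.isEmpty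

variable {children accept}

theorem pf_eStep (hch : PF (fun p : ι × σ => children p.1 p.2))
    (hacc : PF (fun p : ι × σ => accept p.1 p.2)) : PF (eStep children accept) := by
  have hsel : PF (fun q : (ι × (List σ × Bool)) × (σ × List σ) => (q.1.1, q.2.1)) :=
    PF.pair (PF.fst PF.fst') (PF.fst PF.snd')
  refine PF.listCases (g := fun w : ι × (List σ × Bool) => w.2.1) (h1 := fun w => w)
    (h2 := fun q => if accept q.1.1 q.2.1 = true then (q.1.1, ([], true))
      else (q.1.1, (children q.1.1 q.2.1 ++ q.2.2, q.1.2.2)))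
    (PF.fst PF.snd') PF.id' ?_ ?_ ?_
  · refine PF.ite (p := fun q : (ι × (List σ × Bool)) × (σ × List σ) => accept q.1.1 q.2.1)
      (hacc.comp hsel) ?_ ?_
    · exact PF.pair (PF.fst PF.fst') (PF.const _)
    · exact PF.pair (PF.fst PF.fst') (PF.pair (PF.append (hch.comp hsel) (PF.snd PF.snd'))
        (PF.snd (PF.snd PF.fst')))
  · intro c hc
    simp only [eStep, hc]
  · intro c a l hc
    simp only [eStep, hc]

theorem pf_eTest : PF (eTest : ι × (List σ × Bool) → Bool) := PF.isCons (PF.fst PF.snd')

omit [ToD ι] [ToD σ]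

/-- the potential of a stack -/
def pot (rank : σ → ℕ) (b : ℕ) (l : List σ) : ℕ := (l.map (fun s => (b + 1) ^ rank s)).sum

theorem length_le_pot (rank : σ → ℕ) (b : ℕ) (l : List σ) : l.length ≤ pot rank b l := by
  induction l with
  | nil => simp
  | cons s l ih =>
    have : 1 ≤ (b + 1) ^ rank s := Nat.one_le_pow _ _ (by omega)
    simp only [pot, List.map_cons, List.sum_cons, List.length_cons] at ih ⊢
    omega

theorem pot_append (rank : σ → ℕ) (b : ℕ) (l l' : List σ) :
    pot rank b (l ++ l') = pot rank b l + pot rank b l' := by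
  simp [pot]

theorem pot_le (rank : σ → ℕ) (b r : ℕ) (l : List σ) (hl : ∀ s ∈ l, rank s ≤ r) :
    pot rank b l ≤ l.length * (b + 1) ^ r := by
  induction l with
  | nil => simp [pot]
  | cons s l ih =>
    have h1 := ih (fun s hs => hl s (List.mem_cons_of_mem _ hs))
    have h2 : (b + 1) ^ rank s ≤ (b + 1) ^ r :=
      Nat.pow_le_pow_right (by omega) (hl s List.mem_cons_self)
    simp only [pot, List.map_cons, List.sum_cons, List.length_cons] at h1 ⊢
    rw [Nat.add_mul, Nat.one_mul]
    omega

theorem pot_children (rank : σ → ℕ) (b r : ℕ) (l : List σ) (hl : ∀ s ∈ l, rank s < r)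
    (hb : l.length ≤ b) : pot rank b l + 1 ≤ (b + 1) ^ r := by
  rcases l with _ | ⟨s, l⟩
  · have : 1 ≤ (b + 1) ^ r := Nat.one_le_pow _ _ (by omega)
    simpa [pot] using this
  · have hr : 0 < r := lt_of_le_of_lt (Nat.zero_le _) (hl s List.mem_cons_self)
    obtain ⟨r', rfl⟩ : ∃ r', r = r' + 1 := ⟨r - 1, by omega⟩
    have h1 := pot_le rank b r' (s :: l) (fun t ht => Nat.lt_succ_iff.mp (hl t ht))
    have h2 : (s :: l).length * (b + 1) ^ r' ≤ b * (b + 1) ^ r' := Nat.mul_le_mul_right _ hb
    have h3 : 1 ≤ (b + 1) ^ r' := Nat.one_le_pow _ _ (by omega)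
    have h4 : (b + 1) ^ (r' + 1) = b * (b + 1) ^ r' + (b + 1) ^ r' := by ring
    omega

/-- reachability of an accepting state -/
def RA (children : ι → σ → List σ) (accept : ι → σ → Bool) (x : ι) (s : σ) : Prop :=
  ∃ t, Relation.ReflTransGen (fun a b => b ∈ children x a) s t ∧ accept x t = true

theorem RA_iff (x : ι) (s : σ) : RA children accept x s ↔ accept x s = true ∨
    ∃ t ∈ children x s, RA children accept x t := by
  constructor
  · rintro ⟨t, ht, hacc⟩
    rcases Relation.ReflTransGen.cases_head ht with rfl | ⟨u, hu, hut⟩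
    · exact Or.inl hacc
    · exact Or.inr ⟨u, hu, t, hut, hacc⟩
  · rintro (h | ⟨t, ht, u, hu, hacc⟩)
    · exact ⟨s, Relation.ReflTransGen.refl, h⟩
    · exact ⟨u, Relation.ReflTransGen.head ht hu, hacc⟩

/-- One run of the loop: from a stack of good states, after `n` steps the stack is empty and the
flag tells whether an accepting state is reachable. -/
theorem loop_run (rank : σ → ℕ) (Inv : ι → σ → Prop) (x : ι) (B : ℕ)
    (h1 : ∀ s t, Inv x s → t ∈ children x s → Inv x t ∧ rank t < rank s)
    (hB : ∀ s, Inv x s → (children x s).length ≤ B) (N : ℕ) :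
    ∀ (l : List σ), (∀ s ∈ l, Inv x s) → pot rank B l ≤ N →
      ∃ n ≤ N, (∀ i < n, eTest ((eStep children accept)^[i] (x, (l, false))) = true) ∧
        (∃ f : Bool, (f = true ↔ ∃ s ∈ l, RA children accept x s) ∧
          (eStep children accept)^[n] (x, (l, false)) = (x, ([], f))) ∧
        ∀ i ≤ n, ∃ l' f, (eStep children accept)^[i] (x, (l, false)) = (x, (l', f)) ∧
          (∀ s ∈ l', Inv x s) ∧ l'.length ≤ N := by
  induction N with
  | zero =>
    intro l hl hp
    have hlen := length_le_pot rank B l
    obtain rfl : l = [] := List.eq_nil_of_length_eq_zero (by omega)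
    refine ⟨0, le_rfl, fun i hi => absurd hi (Nat.not_lt_zero i), ⟨false, by simp, rfl⟩, ?_⟩
    intro i hi
    obtain rfl : i = 0 := by omega
    exact ⟨[], false, rfl, by simp, by simp⟩
  | succ N ih =>
    intro l hl hp
    rcases l with _ | ⟨s, rest⟩
    · refine ⟨0, Nat.zero_le _, fun i hi => absurd hi (Nat.not_lt_zero i),
        ⟨false, by simp, rfl⟩, ?_⟩
      intro i hi
      obtain rfl : i = 0 := by omega
      exact ⟨[], false, rfl, by simp, by simp⟩
    · have hs : Inv x s := hl s List.mem_cons_self
      have hlen := length_le_pot rank B (s :: rest)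
      have ht0 : eTest (x, (s :: rest, false)) = true := rfl
      cases hacc : accept x s with
      | true =>
        have e1 : eStep children accept (x, (s :: rest, false)) = (x, ([], true)) := by
          simp [eStep, hacc]
        refine ⟨1, by omega, ?_, ⟨true, ?_, ?_⟩, ?_⟩
        · intro i hi
          obtain rfl : i = 0 := by omega
          exact ht0
        · simp only [true_iff]
          exact ⟨s, List.mem_cons_self, (RA_iff x s).mpr (Or.inl hacc)⟩
        · exact e1
        · intro i hi
          rcases (by omega : i = 0 ∨ i = 1) with rfl | rfl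
          · exact ⟨s :: rest, false, rfl, hl, by omega⟩
          · exact ⟨[], true, e1, by simp, by simp⟩
      | false =>
        have e1 : eStep children accept (x, (s :: rest, false)) =
            (x, (children x s ++ rest, false)) := by
          simp [eStep, hacc]
        have hc := pot_children rank B (rank s) (children x s)
          (fun t ht => (h1 s t hs ht).2) (hB s hs)
        have hp' : pot rank B (children x s ++ rest) ≤ N := by
          rw [pot_append]
          simp only [pot, List.map_cons, List.sum_cons] at hp hc ⊢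
          omega
        have hl' : ∀ t ∈ children x s ++ rest, Inv x t := by
          intro t ht
          rcases List.mem_append.mp ht with ht | ht
          · exact (h1 s t hs ht).1
          · exact hl t (List.mem_cons_of_mem _ ht)
        obtain ⟨n, hn, ha, ⟨f, hf, hfn⟩, hb⟩ := ih _ hl' hp'
        refine ⟨n + 1, by omega, ?_, ⟨f, ?_, ?_⟩, ?_⟩
        · intro i hi
          rcases i with _ | i
          · exact ht0
          · rw [Function.iterate_succ_apply, e1]
            exact ha i (by omega)
        · rw [hf]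
          constructor
          · rintro ⟨t, ht, hr⟩
            rcases List.mem_append.mp ht with ht | ht
            · exact ⟨s, List.mem_cons_self, (RA_iff x s).mpr (Or.inr ⟨t, ht, hr⟩)⟩
            · exact ⟨t, List.mem_cons_of_mem _ ht, hr⟩
          · rintro ⟨t, ht, hr⟩
            rcases List.mem_cons.mp ht with rfl | ht
            · rcases (RA_iff x t).mp hr with h | ⟨u, hu, hur⟩
              · rw [hacc] at h
                exact absurd h (by decide)
              · exact ⟨u, List.mem_append_left _ hu, hur⟩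
            · exact ⟨t, List.mem_append_right _ ht, hr⟩
        · rw [Function.iterate_succ_apply, e1]
          exact hfn
        · intro i hi
          rcases i with _ | i
          · exact ⟨s :: rest, false, rfl, hl, by omega⟩
          · rw [Function.iterate_succ_apply, e1]
            obtain ⟨l', f', h3, h4, h5⟩ := hb i (by omega)
            exact ⟨l', f', h3, h4, by omega⟩

variable [ToD ι] [ToD σ]

/-- **Branching algorithms.** -/
theorem engine (init : ι → σ) (children : ι → σ → List σ)
    (accept : ι → σ → Bool) (hinit : PF init)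
    (hch : PF (fun p : ι × σ => children p.1 p.2)) (hacc : PF (fun p : ι × σ => accept p.1 p.2))
    (rank : σ → ℕ) (Inv : ι → σ → Prop) (B M : ι → ℕ) (h0 : ∀ x, Inv x (init x))
    (h1 : ∀ x s t, Inv x s → t ∈ children x s → Inv x t ∧ rank t < rank s)
    (hB : ∀ x s, Inv x s → (children x s).length ≤ B x)
    (hM : ∀ x s, Inv x s → sz s ≤ M x) :
    ∃ (P : Polynomial ℕ) (g : ι → Bool),
      (∀ x, g x = true ↔ ∃ s, Relation.ReflTransGen (fun a b => b ∈ children x a) (init x) s ∧
        accept x s = true) ∧
      Timed en Computability.encodeBool g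
        (fun x => P.eval (sz x + M x + (B x + 1) ^ rank (init x))) := by
  obtain ⟨hI⟩ : PF (fun x : ι => (x, ([init x], false))) :=
    PF.pair PF.id' (PF.pair (PF.cons hinit (PF.const [])) (PF.const false))
  obtain ⟨hS⟩ := pf_eStep hch hacc
  obtain ⟨hT⟩ := (pf_eTest (ι := ι) (σ := σ)).toPB
  obtain ⟨hO⟩ : PB (fun w : ι × (List σ × Bool) => w.2.2) := (PF.snd PF.snd').toPB
  have hrun : ∀ x, ∃ n ≤ (B x + 1) ^ rank (init x),
      (∀ i < n, eTest ((eStep children accept)^[i] (x, ([init x], false))) = true) ∧
        (∃ f : Bool, (f = true ↔ RA children accept x (init x)) ∧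
          (eStep children accept)^[n] (x, ([init x], false)) = (x, ([], f))) ∧
        ∀ i ≤ n, ∃ l' f, (eStep children accept)^[i] (x, ([init x], false)) = (x, (l', f)) ∧
          (∀ s ∈ l', Inv x s) ∧ l'.length ≤ (B x + 1) ^ rank (init x) := by
    intro x
    have := loop_run (accept := accept) rank Inv x (B x) (h1 x) (hB x)
      ((B x + 1) ^ rank (init x)) [init x] (by simpa using h0 x) (by simp [pot])
    simpa using this
  choose n hn ha hb hc using hrun
  choose f hf hfn using hb
  -- the length bound
  set N : ι → ℕ := fun x => (B x + 1) ^ rank (init x) with hN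
  set t : ι → ℕ := fun x => sz x + M x + (B x + 1) ^ rank (init x) with ht
  let Pl : Polynomial ℕ := Polynomial.X ^ 2 + 2 * Polynomial.X + 6
  have hlen : ∀ x, ∀ i ≤ n x,
      (en ((eStep children accept)^[i] (x, ([init x], false)))).length ≤ Pl.eval (t x) := by
    intro x i hi
    obtain ⟨l', f', e, hl', hle⟩ := hc x i hi
    rw [e]
    have b1 : sz l' ≤ l'.length * (M x + 1) + 1 := sz_le_length l' (M x) (fun a ha => hM x a (hl' a ha))
    have b2 : sz f' ≤ 3 := sz_bool f'
    have b3 : (en (x, (l', f'))).length = sz x + (sz l' + sz f' + 1) + 1 := by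
      rw [sz_eq_en, sz_pair, sz_pair]
    have b4 : l'.length * (M x + 1) ≤ N x * (M x + 1) := Nat.mul_le_mul_right _ hle
    have b5 : t x = sz x + M x + N x := rfl
    have b6 : N x * (M x + 1) + sz x ≤ t x ^ 2 + 2 * t x := by
      rw [b5]
      nlinarith [Nat.zero_le (N x), Nat.zero_le (M x), Nat.zero_le (sz x),
        Nat.zero_le (N x * M x), Nat.zero_le (N x * sz x), Nat.zero_le (M x * sz x)]
    rw [b3]
    simp only [Pl, Polynomial.eval_add, Polynomial.eval_mul, Polynomial.eval_pow,
      Polynomial.eval_X, Polynomial.eval_ofNat]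
    omega
  have hW := TimedR.while hT hS (fun x : ι => (x, ([init x], false))) n
    (fun x => Pl.eval (t x)) ha (fun x => by
      have := hfn x
      rw [this]
      rfl) hlen
  have hA := TimedR.ofPoly hI (fun x : ι => x)
  have hC := TimedR.ofPoly hO (fun x : ι =>
    (eStep children accept)^[n x] (x, ([init x], false)))
  have hAll := (hA.comp hW).comp hC
  let T2P : Polynomial ℕ := (((4 * Pl + 2) + ((hT.time.comp Pl + Pl + 1 + 2) + 1)) +
      ((Polynomial.X * ((hS.time.comp Pl + Pl + Pl + 2) + ((3 * Pl + 2) +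
        ((4 * Pl + 2) + ((hT.time.comp Pl + Pl + 1 + 2) + 1))) + 1) + 1) +
        (3 * Pl + 2))) + 1
  let T1P : Polynomial ℕ := ((3 * Polynomial.X + 2) + ((hI.time + Polynomial.X + Pl + 2) +
    ((T2P + Pl + Pl + 2) + (3 * Pl + 2)))) + 1
  let P : Polynomial ℕ := ((3 * Polynomial.X + 2) + ((T1P + Polynomial.X + Pl + 2) +
    ((hO.time.comp Pl + Pl + 1 + 2) + (3 * 1 + 2)))) + 1
  refine ⟨P, fun x => ((eStep children accept)^[n x] (x, ([init x], false))).2.2, ?_, ?_⟩
  · intro x
    change ((eStep children accept)^[n x] (x, ([init x], false))).2.2 = true ↔ _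
    rw [hfn x]
    exact hf x
  · refine TimedR.mono hAll fun x => ?_
    have c0 : (en x).length ≤ t x := by
      rw [sz_eq_en]
      simp only [ht]
      omega
    have c1 := hlen x 0 (Nat.zero_le _)
    rw [Function.iterate_zero, id_eq] at c1
    have c2 := hlen x (n x) le_rfl
    have c3 := eval_mono hI.time c0
    have c4 := eval_mono hO.time c2
    have c5 : n x ≤ t x := (hn x).trans (by simp only [ht]; omega)
    have c6 := Nat.mul_le_mul_right (hS.time.eval (Pl.eval (t x)) + Pl.eval (t x) +
      Pl.eval (t x) + 2 + (3 * Pl.eval (t x) + 2 + (4 * Pl.eval (t x) + 2 +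
        (hT.time.eval (Pl.eval (t x)) + Pl.eval (t x) + 1 + 2 + 1))) + 1) c5
    have c7 : ∀ b : Bool, (Computability.encodeBool b).length = 1 := fun b => rfl
    have d1 : P.eval (t x) = ((3 * t x + 2) + ((T1P.eval (t x) + t x + Pl.eval (t x) + 2) +
        ((hO.time.eval (Pl.eval (t x)) + Pl.eval (t x) + 1 + 2) + (3 * 1 + 2)))) + 1 := by
      simp only [P, Polynomial.eval_add, Polynomial.eval_mul, Polynomial.eval_X,
        Polynomial.eval_ofNat, Polynomial.eval_one, Polynomial.eval_comp]
    have d2 : T1P.eval (t x) = ((3 * t x + 2) + ((hI.time.eval (t x) + t x +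
        Pl.eval (t x) + 2) + ((T2P.eval (t x) + Pl.eval (t x) + Pl.eval (t x) + 2) +
        (3 * Pl.eval (t x) + 2)))) + 1 := by
      simp only [T1P, Polynomial.eval_add, Polynomial.eval_mul, Polynomial.eval_X,
        Polynomial.eval_ofNat, Polynomial.eval_one]
    have d3 : T2P.eval (t x) = (((4 * Pl.eval (t x) + 2) + ((hT.time.eval (Pl.eval (t x)) +
        Pl.eval (t x) + 1 + 2) + 1)) +
        ((t x * ((hS.time.eval (Pl.eval (t x)) + Pl.eval (t x) + Pl.eval (t x) + 2) +
        ((3 * Pl.eval (t x) + 2) + ((4 * Pl.eval (t x) + 2) + ((hT.time.eval (Pl.eval (t x)) +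
        Pl.eval (t x) + 1 + 2) + 1))) + 1) + 1) + (3 * Pl.eval (t x) + 2))) + 1 := by
      simp only [T2P, Polynomial.eval_add, Polynomial.eval_mul, Polynomial.eval_X,
        Polynomial.eval_ofNat, Polynomial.eval_one, Polynomial.eval_comp]
    rw [c7]
    change _ ≤ P.eval (t x)
    rw [d1, d2, d3]
    omega

end engine

end Pool.Agent.W_MP_3feab3_lc
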