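import Pool.Agent.W_MP_3feab3_lc.Main

/-! The final form of the theorem, with an explicit encoding of graphs as words. -/

set_option autoImplicit false

namespace Pool.Agent.W_MP_3feab3_lc

open Turing Pool.Agent.PolyTime

/-- unary code of a number -/
def unary : ℕ → List Bool
  | 0 => [false]
  | n + 1 => true :: false :: unary n

/-- code of a list of edges -/
def edgesCode {n : ℕ} : List (Fin n × Fin n) → List Bool
  | [] => [false]
  | e :: l => true :: true :: (unary e.1 ++ unary e.2 ++ edgesCode l)

/-- code of an instance: the number of vertices, the list of edges, and the parameter -/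
def code (n : ℕ) (E : List (Fin n × Fin n)) (k : ℕ) : List Bool :=
  true :: (unary n ++ true :: (edgesCode E ++ unary k))

/-- forget the bounds -/
def toNat {n : ℕ} (E : List (Fin n × Fin n)) : List (ℕ × ℕ) :=
  E.map (fun e => ((e.1 : ℕ), (e.2 : ℕ)))

theorem unary_eq (n : ℕ) : unary n = en n := by
  induction n with
  | zero => rfl
  | succ n ih =>
    rw [unary, ih]
    rfl

theorem edgesCode_eq {n : ℕ} (E : List (Fin n × Fin n)) : edgesCode E = en (toNat E) := by
  induction E with
  | nil => rfl
  | cons e l ih =>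
    rw [edgesCode, ih, unary_eq, unary_eq]
    rfl

theorem code_eq (n : ℕ) (E : List (Fin n × Fin n)) (k : ℕ) :
    code n E k = en ((n, (toNat E, k)) : Inst) := by
  rw [code, unary_eq, edgesCode_eq, unary_eq]
  rfl

theorem sz_toNat {n : ℕ} (E : List (Fin n × Fin n)) :
    sz (toNat E) ≤ E.length * (4 * n + 4) + 1 := by
  induction E with
  | nil => simp [toNat]
  | cons e l ih =>
    have e1 : toNat (e :: l) = ((e.1 : ℕ), (e.2 : ℕ)) :: toNat l := rfl
    rw [e1, sz_cons, sz_pair, sz_nat, sz_nat, List.length_cons, Nat.add_mul]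
    have h1 := e.1.2
    have h2 := e.2.2
    omega

theorem listGraph_toNat {n : ℕ} (E : List (Fin n × Fin n)) :
    listGraph n (toNat E) = SimpleGraph.fromRel (fun u v => (u, v) ∈ E) := by
  unfold listGraph
  congr 1
  funext u v
  simp only [toNat, List.mem_map, Prod.mk.injEq, eq_iff_iff]
  constructor
  · rintro ⟨e, he, h1, h2⟩
    have : e = (u, v) := Prod.ext (Fin.ext h1) (Fin.ext h2)
    exact this ▸ he
  · intro h
    exact ⟨(u, v), h, rfl, rfl⟩

theorem computable_pow_const {g : ℕ → ℕ} (hg : Computable g) (c : ℕ) :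
    Computable (fun k => g k ^ c) := by
  induction c with
  | zero => simpa using Computable.const 1
  | succ c ih =>
    simp only [pow_succ]
    exact Primrec.nat_mul.to_comp.comp ih hg

theorem final (d : ℕ) :
    ∃ (tm : FinTM2) (ein : tm.Γ tm.k₀ ≃ Bool) (eout : tm.Γ tm.k₁ ≃ Bool) (f : ℕ → ℕ) (c : ℕ),
      Computable f ∧ ∀ (n : ℕ) (E : List (Fin n × Fin n)) (k : ℕ), ∃ b : Bool,
        (b = true ↔ Solvable d (SimpleGraph.fromRel (fun u v : Fin n => (u, v) ∈ E)) k) ∧
        Nonempty (TM2OutputsInTime tm ((code n E k).map ein.symm) (some [eout.symm b])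
          (f k * (n + E.length + 1) ^ c)) := by
  obtain ⟨f, c, g, hf, hg, tm, ein, eout, ht⟩ := main d
  refine ⟨tm, ein, eout, fun k => f k * (2 * k + 6) ^ c * 4 ^ c, 2 * c, ?_, ?_⟩
  · have h1 : Computable (fun k : ℕ => (2 * k + 6) ^ c) :=
      computable_pow_const (Primrec.nat_add.comp
        (Primrec.nat_mul.comp (Primrec.const 2) Primrec.id) (Primrec.const 6)).to_comp c
    have h2 : Computable (fun k : ℕ => f k * (2 * k + 6) ^ c) :=
      Primrec.nat_mul.to_comp.comp hf h1
    exact Primrec.nat_mul.to_comp.comp h2 (Computable.const _)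
  · intro n E k
    refine ⟨g (n, (toNat E, k)), ?_, ?_⟩
    · rw [hg]
      simp only
      rw [listGraph_toNat]
    · obtain ⟨h⟩ := ht (n, (toNat E, k))
      rw [code_eq]
      refine ⟨⟨⟨h.steps, h.evals_in_steps⟩, h.steps_le_m.trans ?_⟩⟩
      have hs : sz ((n, (toNat E, k)) : Inst) ≤ (2 * k + 6) * (4 * (n + E.length + 1) ^ 2) := by
        rw [sz_pair, sz_pair, sz_nat, sz_nat]
        have := sz_toNat E
        nlinarith [Nat.zero_le (k * n), Nat.zero_le (k * E.length), Nat.zero_le (n * E.length),
          Nat.zero_le (k * n * E.length), Nat.zero_le (k * n ^ 2), Nat.zero_le (k * E.length ^ 2)]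
      calc f k * sz ((n, (toNat E, k)) : Inst) ^ c
          ≤ f k * ((2 * k + 6) * (4 * (n + E.length + 1) ^ 2)) ^ c :=
            Nat.mul_le_mul_left _ (Nat.pow_le_pow_left hs _)
        _ = f k * (2 * k + 6) ^ c * 4 ^ c * (n + E.length + 1) ^ (2 * c) := by
            rw [mul_pow, mul_pow, ← pow_mul]
            ring

end Pool.Agent.W_MP_3feab3_lc
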