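import Pool.Agent.W_MP_3feab3_lc.Defs
import Pool.Agent.PolyTime.Lists

/-! Invariants, rank, and size bounds of the states. -/

set_option autoImplicit false

namespace Pool.Agent.W_MP_3feab3_lc

open Pool.Agent.PolyTime

theorem inv_init (x : Inst) : Inv x (init x) :=
  ⟨Nat.zero_le _, List.Sublist.refl _, le_refl _, List.nil_sublist _⟩

theorem inv_comp_sublist (E : List (ℕ × ℕ)) (U X : List ℕ) {v : ℕ} (hv : v ∈ U) :
    (comp E U X).Sublist U := by
  have h1 : U.length ≠ 0 := by
    intro h
    rw [List.length_eq_zero_iff] at h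
    rw [h] at hv
    exact List.not_mem_nil hv
  obtain ⟨m, hm⟩ := Nat.exists_eq_succ_of_ne_zero h1
  unfold comp
  rw [hm, Function.iterate_succ_apply']
  exact List.filter_sublist

theorem inv_budget_le (E : List (ℕ × ℕ)) (d : ℕ) (N : List ℕ) (k : ℕ) :
    budget E d N k ≤ k := by
  unfold budget
  refine (List.length_filter_le _ _).trans ?_
  rw [List.length_range]

theorem inv_bad_head {E : List (ℕ × ℕ)} {d : ℕ} {A : List ℕ} {v : ℕ} {l : List ℕ}
    (h : bad E d A = v :: l) : v ∈ A := by
  have h1 : v ∈ bad E d A := by
    rw [h]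
    exact List.mem_cons_self
  exact (List.mem_filter.mp h1).1

theorem inv_step {d : ℕ} {x : Inst} {s t : St} (h : Inv x s) (ht : t ∈ children d x s) :
    Inv x t ∧ rank t < rank s := by
  obtain ⟨m, A, k, Q⟩ := s
  obtain ⟨hm, hA, hk, hQ⟩ := h
  simp only at hm hA hk hQ
  unfold children at ht
  simp only at ht
  by_cases h0 : m = 0
  · -- mode 0
    rw [if_pos h0] at ht
    subst h0
    by_cases h1 : k = 0
    · rw [if_pos h1] at ht
      exact absurd ht List.not_mem_nil
    rw [if_neg h1] at ht
    split at ht
    · exact absurd ht List.not_mem_nil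
    · rename_i v l hv
      have hvA : v ∈ A := inv_bad_head hv
      unfold branch0 at ht
      rcases List.mem_cons.mp ht with rfl | ht
      · refine ⟨⟨Nat.zero_le _, ?_, ?_, List.nil_sublist _⟩, ?_⟩
        · exact List.filter_sublist.trans hA
        · exact (Nat.sub_le _ _).trans hk
        · simp only [rank, if_true]
          omega
      · obtain ⟨q, -, ht⟩ := List.mem_flatMap.mp ht
        obtain ⟨R, -, rfl⟩ := List.mem_map.mp ht
        refine ⟨⟨by norm_num, hA, hk, ?_⟩, ?_⟩
        · have hvU : v ∈ sieve A v q R := by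
            refine List.mem_filter.mpr ⟨hvA, ?_⟩
            simp
          exact (inv_comp_sublist x.2.1 (sieve A v q R) [v] hvU).trans
            (List.filter_sublist.trans hA)
        · simp [rank]
  · rw [if_neg h0] at ht
    split at ht
    · -- finish
      unfold finish at ht
      split_ifs at ht with h2 h3
      · exact absurd ht List.not_mem_nil
      · rw [List.mem_singleton] at ht
        subst ht
        have hb := inv_budget_le x.2.1 d (cl x.2.1 A Q) k
        refine ⟨⟨Nat.zero_le _, List.filter_sublist.trans hA, hb.trans hk,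
          List.nil_sublist _⟩, ?_⟩
        simp only [rank, if_true, h0, if_false]
        split_ifs with h4
        · have h5 : budget x.2.1 d (cl x.2.1 A Q) k ≠ k := fun h5 => h3 ⟨h4, h5⟩
          omega
        · omega
      · exact absurd ht List.not_mem_nil
    · rename_i e l he
      split_ifs at ht with h2
      · exact absurd ht List.not_mem_nil
      · rcases List.mem_cons.mp ht with rfl | ht
        · refine ⟨⟨le_refl _, List.filter_sublist.trans hA, (Nat.sub_le _ _).trans hk, hQ⟩, ?_⟩
          simp only [rank, h0, if_false]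
          norm_num
          split_ifs <;> omega
        · rw [List.mem_singleton] at ht
          subst ht
          refine ⟨⟨le_refl _, List.filter_sublist.trans hA, (Nat.sub_le _ _).trans hk, hQ⟩, ?_⟩
          simp only [rank, h0, if_false]
          norm_num
          split_ifs <;> omega

theorem inv_length_tups (e : ℕ) (l : List ℕ) : (tups e l).length = l.length ^ e := by
  induction e with
  | zero => simp [tups]
  | succ e ih =>
    unfold tups
    rw [List.length_flatMap]
    simp only [List.length_map, List.map_const', List.sum_replicate, smul_eq_mul]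
    rw [ih, pow_succ]

theorem length_children {d : ℕ} {x : Inst} {s : St} (h : Inv x s) :
    (children d x s).length ≤ modBound d x.1 x.2.2 ^ (3 * d + 2) + 2 := by
  obtain ⟨m, A, k, Q⟩ := s
  unfold children
  simp only
  by_cases h0 : m = 0
  · rw [if_pos h0]
    by_cases h1 : k = 0
    · rw [if_pos h1]
      simp
    rw [if_neg h1]
    split
    · simp
    · rename_i v l hv
      unfold branch0
      rw [List.length_cons, List.length_flatMap]
      have h2 : (List.map (fun q => (List.map (fun R =>
          ((1, A, k, comp x.2.1 (sieve A v q R) [v]) : St))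
          (tups (3 * d + 1) (List.range q))).length) (List.range (modBound d x.1 x.2.2))).sum
          ≤ modBound d x.1 x.2.2 ^ (3 * d + 2) := by
        refine (List.sum_le_card_nsmul _ (modBound d x.1 x.2.2 ^ (3 * d + 1)) ?_).trans ?_
        · intro y hy
          obtain ⟨q, hq, rfl⟩ := List.mem_map.mp hy
          rw [List.length_map, inv_length_tups, List.length_range]
          exact Nat.pow_le_pow_left (List.mem_range.mp hq).le _
        · rw [List.length_map, List.length_range, smul_eq_mul, ← pow_succ']
      omega
  · rw [if_neg h0]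
    split
    · unfold finish
      split_ifs <;> simp
    · split_ifs
      · simp
      · simp

theorem sz_state_le {x : Inst} {s : St} (h : Inv x s) : sz s ≤ 12 * sz x ^ 2 := by
  obtain ⟨m, A, k, Q⟩ := s
  obtain ⟨n, E, k₀⟩ := x
  obtain ⟨hm, hA, hk, hQ⟩ := h
  simp only at hm hA hk hQ
  have hsub : ∀ B : List ℕ, B.Sublist (List.range n) → sz B ≤ n * (2 * n + 1) + 1 := by
    intro B hB
    have h1 := sz_le_length B (2 * n) (by
      intro a ha
      have := List.mem_range.mp (hB.subset ha)
      rw [sz_nat]
      omega)
    have h2 : B.length ≤ n := by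
      have := hB.length_le
      rwa [List.length_range] at this
    exact h1.trans (Nat.add_le_add_right (Nat.mul_le_mul_right _ h2) 1)
  have h1 := hsub A hA
  have h2 := hsub Q hQ
  have h3 : 1 ≤ sz E := sz_pos E
  simp only [sz_pair, sz_nat]
  have h4 : 2 * n + 2 * k₀ + 5 ≤ 2 * n + 1 + (sz E + (2 * k₀ + 1) + 1) + 1 := by omega
  have h5 : (2 * n + 2 * k₀ + 5) ^ 2 ≤ (2 * n + 1 + (sz E + (2 * k₀ + 1) + 1) + 1) ^ 2 :=
    Nat.pow_le_pow_left h4 2
  have h6 : 2 * m + 1 + (sz A + (2 * k + 1 + sz Q + 1) + 1) + 1
      ≤ 9 + 2 * k₀ + 2 * (n * (2 * n + 1) + 1) := by omega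
  have h7 : 9 + 2 * k₀ + 2 * (n * (2 * n + 1) + 1) ≤ 12 * (2 * n + 2 * k₀ + 5) ^ 2 := by
    nlinarith [Nat.zero_le n, Nat.zero_le k₀]
  exact h6.trans (h7.trans (Nat.mul_le_mul_left 12 h5))

end Pool.Agent.W_MP_3feab3_lc
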