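import Pool.Agent.W_MP_3feab3_lc.Defs
import Pool.Agent.PolyTime.Lists

/-! The running time is of the form `f(k) n^c`. -/

set_option autoImplicit false

namespace Pool.Agent.W_MP_3feab3_lc

open Pool.Agent.PolyTime

theorem numeric_primrec_pow : Primrec₂ (fun a b : ℕ => a ^ b) :=
  Primrec₂.unpaired'.1 Nat.Primrec.pow

theorem numeric_primrec_eval (P : Polynomial ℕ) : Primrec (fun z : ℕ => P.eval z) := by
  induction P using Polynomial.induction_on' with
  | add p q hp hq =>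
    have : (fun z : ℕ => (p + q).eval z) = fun z => p.eval z + q.eval z := by
      funext z; exact Polynomial.eval_add
    rw [this]
    exact Primrec.nat_add.comp hp hq
  | monomial i c =>
    have : (fun z : ℕ => (Polynomial.monomial i c).eval z) = fun z => c * z ^ i := by
      funext z; exact Polynomial.eval_monomial
    rw [this]
    exact Primrec.nat_mul.comp (Primrec.const c)
      (numeric_primrec_pow.comp Primrec.id (Primrec.const i))

theorem numeric_eval_mul_le (P : Polynomial ℕ) (B T : ℕ) (hT : 1 ≤ T) :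
    P.eval (B * T) ≤ P.eval B * T ^ P.natDegree := by
  rw [Polynomial.eval_eq_sum_range, Polynomial.eval_eq_sum_range, Finset.sum_mul]
  refine Finset.sum_le_sum fun i hi => ?_
  rw [mul_pow, ← mul_assoc]
  refine Nat.mul_le_mul_left _ (Nat.pow_le_pow_right hT ?_)
  have := Finset.mem_range.1 hi
  omega

theorem numeric_eval_mono (P : Polynomial ℕ) {a b : ℕ} (h : a ≤ b) : P.eval a ≤ P.eval b := by
  rw [Polynomial.eval_eq_sum_range, Polynomial.eval_eq_sum_range]
  exact Finset.sum_le_sum fun i _ => Nat.mul_le_mul_left _ (Nat.pow_le_pow_left h i)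

theorem numeric_pow_le (y M : ℕ) (hM : 0 < M) : y ^ M ≤ M ^ M * 2 ^ y := by
  have h1 : y ≤ M * 2 ^ (y / M) := by
    have h2 : y / M + 1 ≤ 2 ^ (y / M) := Nat.lt_two_pow_self
    have h3 : y < M * (y / M + 1) := by
      have := Nat.div_add_mod y M
      have := Nat.mod_lt y hM
      rw [Nat.mul_add]
      omega
    exact h3.le.trans (Nat.mul_le_mul_left _ h2)
  calc y ^ M ≤ (M * 2 ^ (y / M)) ^ M := Nat.pow_le_pow_left h1 M
    _ = M ^ M * 2 ^ (y / M * M) := by rw [mul_pow, pow_mul]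
    _ ≤ M ^ M * 2 ^ y :=
      Nat.mul_le_mul_left _ (Nat.pow_le_pow_right (by norm_num) (Nat.div_mul_le_self y M))

/-- the factor depending on the parameter -/
def numericF (d k : ℕ) : ℕ :=
  2 * ((3 * d + 2) * (3 * k + 1)) ^ ((3 * d + 2) * (3 * k + 1)) *
    ((2 * (k + (3 * d + 1)) ^ 2 + 3) ^ (3 * d + 2) + 3) ^ (3 * k + 1)

theorem numericF_primrec (d : ℕ) : Primrec (numericF d) := by
  have hk : Primrec (fun k : ℕ => k) := Primrec.id
  have c : ∀ m : ℕ, Primrec (fun _ : ℕ => m) := fun m => Primrec.const m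
  have hM : Primrec (fun k : ℕ => (3 * d + 2) * (3 * k + 1)) :=
    Primrec.nat_mul.comp (c _) (Primrec.nat_add.comp (Primrec.nat_mul.comp (c 3) hk) (c 1))
  have hMM : Primrec (fun k : ℕ => ((3 * d + 2) * (3 * k + 1)) ^ ((3 * d + 2) * (3 * k + 1))) :=
    numeric_primrec_pow.comp hM hM
  have ha : Primrec (fun k : ℕ => 2 * (k + (3 * d + 1)) ^ 2 + 3) :=
    Primrec.nat_add.comp (Primrec.nat_mul.comp (c 2)
      (numeric_primrec_pow.comp (Primrec.nat_add.comp hk (c _)) (c 2))) (c 3)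
  have hb : Primrec (fun k : ℕ => (2 * (k + (3 * d + 1)) ^ 2 + 3) ^ (3 * d + 2) + 3) :=
    Primrec.nat_add.comp (numeric_primrec_pow.comp ha (c _)) (c 3)
  have hc : Primrec (fun k : ℕ =>
      ((2 * (k + (3 * d + 1)) ^ 2 + 3) ^ (3 * d + 2) + 3) ^ (3 * k + 1)) :=
    numeric_primrec_pow.comp hb
      (Primrec.nat_add.comp (Primrec.nat_mul.comp (c 3) hk) (c 1))
  exact Primrec.nat_mul.comp (Primrec.nat_mul.comp (c 2) hMM) hc

theorem numeric_third (d n k : ℕ) :
    (modBound d n k ^ (3 * d + 2) + 2 + 1) ^ (3 * k + 1) ≤ numericF d k * (n + 1) := by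
  set L := Nat.log 2 n with hL
  set a := 2 * (k + (3 * d + 1)) ^ 2 + 3 with ha
  have h1 : modBound d n k ≤ (L + 1) * a := by
    unfold modBound
    rw [← hL, ha]
    nlinarith [Nat.zero_le (L * (k + (3 * d + 1)) ^ 2), Nat.zero_le L]
  have h2 : modBound d n k ^ (3 * d + 2) + 2 + 1 ≤ (L + 1) ^ (3 * d + 2) * (a ^ (3 * d + 2) + 3) := by
    have h3 := Nat.pow_le_pow_left h1 (3 * d + 2)
    rw [mul_pow] at h3
    have h4 : 1 ≤ (L + 1) ^ (3 * d + 2) := Nat.one_le_pow _ _ (by omega)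
    rw [Nat.mul_add]
    omega
  have h3 := Nat.pow_le_pow_left h2 (3 * k + 1)
  rw [mul_pow, ← pow_mul] at h3
  refine h3.trans ?_
  have h4 := numeric_pow_le (L + 1) ((3 * d + 2) * (3 * k + 1)) (by positivity)
  have h5 : 2 ^ L ≤ n + 1 := by
    by_cases hn : n = 0
    · subst hn
      simp [hL]
    · exact (Nat.pow_log_le_self 2 hn).trans (Nat.le_succ n)
  have h6 : (L + 1) ^ ((3 * d + 2) * (3 * k + 1)) ≤
      (2 * ((3 * d + 2) * (3 * k + 1)) ^ ((3 * d + 2) * (3 * k + 1))) * (n + 1) := by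
    refine h4.trans ?_
    rw [pow_succ 2 L]
    calc ((3 * d + 2) * (3 * k + 1)) ^ ((3 * d + 2) * (3 * k + 1)) * (2 ^ L * 2)
        = (2 * ((3 * d + 2) * (3 * k + 1)) ^ ((3 * d + 2) * (3 * k + 1))) * 2 ^ L := by ring
      _ ≤ _ := Nat.mul_le_mul_left _ h5
  calc (L + 1) ^ ((3 * d + 2) * (3 * k + 1)) * (a ^ (3 * d + 2) + 3) ^ (3 * k + 1)
      ≤ ((2 * ((3 * d + 2) * (3 * k + 1)) ^ ((3 * d + 2) * (3 * k + 1))) * (n + 1)) *
        (a ^ (3 * d + 2) + 3) ^ (3 * k + 1) := Nat.mul_le_mul_right _ h6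
    _ = numericF d k * (n + 1) := by
      unfold numericF
      rw [← ha]
      ring

theorem fpt_bound (d : ℕ) (P : Polynomial ℕ) :
    ∃ (f : ℕ → ℕ) (c : ℕ), Computable f ∧ ∀ x : Inst,
      P.eval (sz x + 12 * sz x ^ 2 +
        (modBound d x.1 x.2.2 ^ (3 * d + 2) + 2 + 1) ^ (3 * x.2.2 + 1)) ≤
        f x.2.2 * sz x ^ c := by
  refine ⟨fun k => P.eval (13 + numericF d k), 2 * P.natDegree, ?_, ?_⟩
  · exact ((numeric_primrec_eval P).comp
      (Primrec.nat_add.comp (Primrec.const 13) (numericF_primrec d))).to_comp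
  · rintro ⟨n, E, k⟩
    have hS : n + 1 ≤ sz ((n, E, k) : Inst) := by
      simp only [sz_pair, sz_nat]
      omega
    set S := sz ((n, E, k) : Inst) with hSd
    have h1 := numeric_third d n k
    have h2 : numericF d k * (n + 1) ≤ numericF d k * S ^ 2 := by
      refine Nat.mul_le_mul_left _ (hS.trans ?_)
      nlinarith
    have h3 : S ≤ S ^ 2 := by nlinarith
    have h4 : S + 12 * S ^ 2 + (modBound d n k ^ (3 * d + 2) + 2 + 1) ^ (3 * k + 1) ≤
        (13 + numericF d k) * S ^ 2 := by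
      rw [Nat.add_mul]
      omega
    calc P.eval (S + 12 * S ^ 2 + (modBound d n k ^ (3 * d + 2) + 2 + 1) ^ (3 * k + 1))
        ≤ P.eval ((13 + numericF d k) * S ^ 2) := numeric_eval_mono P h4
      _ ≤ P.eval (13 + numericF d k) * (S ^ 2) ^ P.natDegree :=
        numeric_eval_mul_le P _ _ (Nat.one_le_pow _ _ (by omega))
      _ = P.eval (13 + numericF d k) * S ^ (2 * P.natDegree) := by rw [pow_mul]

end Pool.Agent.W_MP_3feab3_lc
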