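import Pool.Agent.W_MP_3feab3_lc.PFa
import Pool.Agent.PolyTime.Clock

/-! Polynomial time computability of the branching rules. -/

set_option autoImplicit false

namespace Pool.Agent.W_MP_3feab3_lc

open Pool.Agent.PolyTime

section

variable {γ : Type} [ToD γ]

theorem pf_isEmpty {α : Type} [ToD α] {l : γ → List α} (hl : PF l) :
    PF (fun c => (l c).isEmpty) := by
  refine hl.isCons.not.cast (fun c => ?_)
  rw [Bool.not_not]

theorem pf_compOK (d : ℕ) {E : γ → List (ℕ × ℕ)} {C : γ → List ℕ} (hE : PF E) (hC : PF C) :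
    PF (fun c => compOK (E c) d (C c)) :=
  PF.any (g := fun c D => (und (E c) (C c) D).isEmpty)
    (pf_isEmpty (pf_und (hE.comp PF.id'.fst) (hC.comp PF.id'.fst) PF.id'.snd)) (pf_tups d hC)

theorem pf_bad (d : ℕ) {E : γ → List (ℕ × ℕ)} {A : γ → List ℕ} (hE : PF E) (hA : PF A) :
    PF (fun c => bad (E c) d (A c)) :=
  PF.filter (g := fun c v => !compOK (E c) d (comp (E c) (A c) [v]))
    (pf_compOK d (hE.comp PF.id'.fst)
      (pf_comp (hE.comp PF.id'.fst) (hA.comp PF.id'.fst) (PF.id'.snd.cons (PF.const [])))).not hA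

theorem pf_sieve {A R : γ → List ℕ} {v q : γ → ℕ} (hA : PF A) (hv : PF v) (hq : PF q)
    (hR : PF R) : PF (fun c => sieve (A c) (v c) (q c) (R c)) := by
  refine PF.filter (g := fun c x => decide (x = v c) || (R c).any (fun r => decide (x % q c = r)))
    ((PF.id'.snd.natEq (hv.comp PF.id'.fst)).or ?_) hA
  exact PF.any (g := fun (p : γ × ℕ) r => decide (p.2 % q p.1 = r))
    ((pf_mod PF.id'.fst.snd (hq.comp PF.id'.fst.fst)).natEq PF.id'.snd) (hR.comp PF.id'.fst)

theorem pf_del {A : γ → List ℕ} {v : γ → ℕ} (hA : PF A) (hv : PF v) :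
    PF (fun c => del (A c) (v c)) :=
  PF.filter (g := fun c y => !decide (y = v c)) (PF.id'.snd.natEq (hv.comp PF.id'.fst)).not hA

theorem pf_crossing {E : γ → List (ℕ × ℕ)} {N O : γ → List ℕ} (hE : PF E) (hN : PF N)
    (hO : PF O) : PF (fun c => crossing (E c) (N c) (O c)) := by
  refine PF.flatMap (g := fun c x => ((O c).filter (fun y => adj (E c) x y)).map
    (fun y => (x, y))) ?_ hN
  refine PF.map (g := fun (p : γ × ℕ) y => (p.2, y)) (PF.id'.fst.snd.pair PF.id'.snd) ?_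
  exact PF.filter (g := fun (p : γ × ℕ) y => adj (E p.1) p.2 y)
    (pf_adj (hE.comp PF.id'.fst.fst) PF.id'.fst.snd PF.id'.snd) (hO.comp PF.id'.fst)

theorem pf_feas (d : ℕ) {E : γ → List (ℕ × ℕ)} {N : γ → List ℕ} {k : γ → ℕ} (hE : PF E)
    (hN : PF N) (hk : PF k) : PF (fun c => feas (E c) d (N c) (k c)) :=
  PF.any (g := fun c D => decide ((und (E c) (N c) D).length ≤ k c))
    ((pf_und (hE.comp PF.id'.fst) (hN.comp PF.id'.fst) PF.id'.snd).length.le
      (hk.comp PF.id'.fst)) (pf_tups d hN)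

theorem pf_budget (d : ℕ) {E : γ → List (ℕ × ℕ)} {N : γ → List ℕ} {k : γ → ℕ} (hE : PF E)
    (hN : PF N) (hk : PF k) : PF (fun c => budget (E c) d (N c) (k c)) :=
  (PF.filter (g := fun c j => feas (E c) d (N c) (k c - (j + 1)))
    (pf_feas d (hE.comp PF.id'.fst) (hN.comp PF.id'.fst)
      ((hk.comp PF.id'.fst).sub PF.id'.snd.succ)) hk.range).length

theorem pf_modBound (d : ℕ) {n k : γ → ℕ} (hn : PF n) (hk : PF k) :
    PF (fun c => modBound d (n c) (k c)) := by
  have h := ((PF.const (α := γ) 2).mul ((((pf_log2 hn).add (PF.const 1)).mul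
    ((hk.add (PF.const (3 * d + 1))).pow 2)).add (PF.const 1))).add (PF.const 1)
  exact h

theorem pf_branch0 (d : ℕ) {x : γ → Inst} {A : γ → List ℕ} {k v : γ → ℕ} (hx : PF x)
    (hA : PF A) (hk : PF k) (hv : PF v) : PF (fun c => branch0 d (x c) (A c) (k c) (v c)) := by
  refine PF.cons ?_ ?_
  · exact (PF.const 0).pair ((pf_del hA hv).pair (hk.pred.pair (PF.const [])))
  · refine PF.flatMap (g := fun c q => (tups (3 * d + 1) (List.range q)).map (fun R =>
        ((1, A c, k c, comp (x c).2.1 (sieve (A c) (v c) q R) [v c]) : St))) ?_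
      (pf_modBound d hx.fst hx.snd.snd).range
    refine PF.map (g := fun (p : γ × ℕ) R =>
      ((1, A p.1, k p.1, comp (x p.1).2.1 (sieve (A p.1) (v p.1) p.2 R) [v p.1]) : St)) ?_
      (pf_tups _ PF.id'.snd.range)
    have hx' := hx.comp (PF.id' (α := (γ × ℕ) × List ℕ)).fst.fst
    have hA' := hA.comp (PF.id' (α := (γ × ℕ) × List ℕ)).fst.fst
    have hk' := hk.comp (PF.id' (α := (γ × ℕ) × List ℕ)).fst.fst
    have hv' := hv.comp (PF.id' (α := (γ × ℕ) × List ℕ)).fst.fst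
    exact (PF.const 1).pair (hA'.pair (hk'.pair (pf_comp hx'.snd.fst
      (pf_sieve hA' hv' PF.id'.fst.snd PF.id'.snd) (hv'.cons (PF.const [])))))

theorem pf_finish (d : ℕ) {E : γ → List (ℕ × ℕ)} {m k : γ → ℕ} {A Q : γ → List ℕ} (hE : PF E)
    (hm : PF m) (hA : PF A) (hk : PF k) (hQ : PF Q) :
    PF (fun c => finish d (E c) (m c) (A c) (k c) (Q c)) := by
  have hc := pf_cl hE hA hQ
  have hb := pf_budget d hE hc hk
  have h := (pf_feas d hE hc hk).ite (((hm.natEq (PF.const 1)).and (hb.natEq hk)).ite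
    (PF.const []) (((PF.const 0).pair ((pf_und hE hA hQ).pair (hb.pair
      (PF.const (β := List ℕ) [])))).cons (PF.const [])))
    (PF.const [])
  refine h.cast (fun c => ?_)
  congr 1
  unfold finish
  split
  · simp only [Bool.and_eq_true, decide_eq_true_eq]
  · rfl

end

theorem pf_init : PF init :=
  (PF.const 0).pair (PF.id'.fst.range.pair (PF.id'.snd.snd.pair (PF.const [])))

theorem pf_accept (d : ℕ) : PF (fun p : Inst × St => accept d p.1 p.2) :=
  (PF.id'.snd.fst.natEq (PF.const 0)).and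
    (pf_isEmpty (pf_bad d PF.id'.fst.snd.fst PF.id'.snd.snd.fst))

theorem pf_children (d : ℕ) : PF (fun p : Inst × St => children d p.1 p.2) := by
  have hb : PF (fun p : Inst × St => bad p.1.2.1 d p.2.2.1) :=
    pf_bad d PF.id'.fst.snd.fst PF.id'.snd.snd.fst
  have hc : PF (fun p : Inst × St => crossing p.1.2.1 (cl p.1.2.1 p.2.2.1 p.2.2.2.2)
      (und p.1.2.1 p.2.2.1 p.2.2.2.2)) :=
    pf_crossing PF.id'.fst.snd.fst
      (pf_cl PF.id'.fst.snd.fst PF.id'.snd.snd.fst PF.id'.snd.snd.snd.snd)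
      (pf_und PF.id'.fst.snd.fst PF.id'.snd.snd.fst PF.id'.snd.snd.snd.snd)
  have h0 : PF (fun p : Inst × St => (match bad p.1.2.1 d p.2.2.1 with
        | [] => []
        | v :: _ => branch0 d p.1 p.2.2.1 p.2.2.2.1 v : List St)) := by
    refine PF.listCases (g := fun p : Inst × St => bad p.1.2.1 d p.2.2.1)
      (h1 := fun _ => [])
      (h2 := fun q : (Inst × St) × (ℕ × List ℕ) => branch0 d q.1.1 q.1.2.2.1 q.1.2.2.2.1 q.2.1)
      hb (PF.const []) ?_ ?_ ?_
    · exact pf_branch0 d PF.id'.fst.fst PF.id'.fst.snd.snd.fst PF.id'.fst.snd.snd.snd.fst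
        PF.id'.snd.fst
    · intro c hc
      simp only [hc]
    · intro c a l hc
      simp only [hc]
  have h1 : PF (fun p : Inst × St => (match crossing p.1.2.1 (cl p.1.2.1 p.2.2.1 p.2.2.2.2)
      (und p.1.2.1 p.2.2.1 p.2.2.2.2) with
      | [] => finish d p.1.2.1 p.2.1 p.2.2.1 p.2.2.2.1 p.2.2.2.2
      | e :: _ => if p.2.2.2.1 = 0 then []
          else [(2, del p.2.2.1 e.1, p.2.2.2.1 - 1, p.2.2.2.2),
            (2, del p.2.2.1 e.2, p.2.2.2.1 - 1, p.2.2.2.2)] : List St)) := by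
    refine PF.listCases (g := fun p : Inst × St =>
        crossing p.1.2.1 (cl p.1.2.1 p.2.2.1 p.2.2.2.2) (und p.1.2.1 p.2.2.1 p.2.2.2.2))
      (h1 := fun p => finish d p.1.2.1 p.2.1 p.2.2.1 p.2.2.2.1 p.2.2.2.2)
      (h2 := fun q : (Inst × St) × ((ℕ × ℕ) × List (ℕ × ℕ)) =>
        if decide (q.1.2.2.2.1 = 0) then []
          else [((2, del q.1.2.2.1 q.2.1.1, q.1.2.2.2.1 - 1, q.1.2.2.2.2) : St),
            (2, del q.1.2.2.1 q.2.1.2, q.1.2.2.2.1 - 1, q.1.2.2.2.2)])
      hc ?_ ?_ ?_ ?_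
    · exact pf_finish d PF.id'.fst.snd.fst PF.id'.snd.fst PF.id'.snd.snd.fst
        PF.id'.snd.snd.snd.fst PF.id'.snd.snd.snd.snd
    · have hk : PF (fun q : (Inst × St) × ((ℕ × ℕ) × List (ℕ × ℕ)) => q.1.2.2.2.1) :=
        PF.id'.fst.snd.snd.snd.fst
      have hA : PF (fun q : (Inst × St) × ((ℕ × ℕ) × List (ℕ × ℕ)) => q.1.2.2.1) :=
        PF.id'.fst.snd.snd.fst
      have hQ : PF (fun q : (Inst × St) × ((ℕ × ℕ) × List (ℕ × ℕ)) => q.1.2.2.2.2) :=
        PF.id'.fst.snd.snd.snd.snd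
      refine (hk.natEq (PF.const 0)).ite (PF.const []) (PF.cons ?_ (PF.cons ?_ (PF.const [])))
      · exact (PF.const 2).pair ((pf_del hA PF.id'.snd.fst.fst).pair (hk.pred.pair hQ))
      · exact (PF.const 2).pair ((pf_del hA PF.id'.snd.fst.snd).pair (hk.pred.pair hQ))
    · intro c hc
      simp only [hc]
    · intro c a l hc
      simp only [hc, decide_eq_true_eq]
  have h := ((PF.id' (α := Inst × St)).snd.fst.natEq (PF.const 0)).ite
    ((PF.id'.snd.snd.snd.fst.natEq (PF.const 0)).ite (PF.const []) h0) h1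
  refine h.cast (fun p => ?_)
  congr 1
  unfold children
  simp only [decide_eq_true_eq]
  rfl

end Pool.Agent.W_MP_3feab3_lc
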