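import Pool.Agent.W_MP_3feab3_lc.Sem1

/-! Soundness of the branching rules. -/

set_option autoImplicit false

namespace Pool.Agent.W_MP_3feab3_lc

theorem sound_accept {d : ℕ} {x : Inst} {s : St} (h : accept d x s = true) :
    YesN x.2.1 d (st s.2.1) s.2.2.1 := by
  unfold accept at h
  rw [Bool.and_eq_true] at h
  have h2 : bad x.2.1 d s.2.1 = [] := by simpa using h.2
  refine ⟨∅, by simp, ?_⟩
  rw [Finset.coe_empty, Set.sdiff_empty]
  exact bad_eq_nil_iff.1 h2

theorem sound_del {E : List (ℕ × ℕ)} {d : ℕ} {A : List ℕ} {k v : ℕ} (hk : k ≠ 0)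
    (hy : YesN E d (st (del A v)) (k - 1)) : YesN E d (st A) k := by
  obtain ⟨S, hS, hG⟩ := hy
  refine ⟨insert v S, (Finset.card_insert_le _ _).trans (by omega), ?_⟩
  have : st A \ ((insert v S : Finset ℕ) : Set ℕ) = st (del A v) \ (S : Set ℕ) := by
    ext y
    simp only [Set.mem_sdiff, st, Set.mem_ofPred_eq, Finset.coe_insert, Set.mem_insert_iff,
      Finset.mem_coe, mem_del]
    tauto
  rw [this]
  exact hG

theorem sound_finish {E : List (ℕ × ℕ)} {d : ℕ} {A Q : List ℕ} {k : ℕ}
    (hcross : crossing E (cl E A Q) (und E A Q) = []) (hfeas : feas E d (cl E A Q) k = true)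
    (hy : YesN E d (st (und E A Q)) (budget E d (cl E A Q) k)) : YesN E d (st A) k := by
  classical
  obtain ⟨S₁, hS₁, hG⟩ := hy
  obtain ⟨D, hD, hDlen⟩ := feas_iff.1 (budget_sound hfeas)
  have hb := budget_le E d (cl E A Q) k
  set N := cl E A Q with hN
  set O := und E A Q with hO
  have hno : ∀ a ∈ N, ∀ b ∈ O, adj E a b ≠ true := by
    intro a ha b hb' hab
    have : (a, b) ∈ crossing E N O := mem_crossing.2 ⟨ha, hb', hab⟩
    rw [hcross] at this
    simp at this
  have hdisj : ∀ a, a ∈ N → a ∈ O → False := by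
    intro a h1 h2
    have h3 := (mem_cl.1 h1).2
    have h4 := (mem_und.1 h2).2
    rw [h3] at h4
    exact absurd h4 (by simp)
  have hNA : ∀ a ∈ N, a ∈ A := fun a ha => (mem_cl.1 ha).1
  have hOA : ∀ a ∈ O, a ∈ A := fun a ha => (mem_und.1 ha).1
  have hsplit : ∀ a ∈ A, a ∈ N ∨ a ∈ O := by
    intro a ha
    cases h : dom E Q a with
    | true => exact Or.inl (mem_cl.2 ⟨ha, h⟩)
    | false => exact Or.inr (mem_und.2 ⟨ha, h⟩)
  set U := und E N D with hU
  set S : Finset ℕ := S₁.filter (fun a => a ∈ O) ∪ U.toFinset with hS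
  have hmemS : ∀ a, a ∈ S ↔ (a ∈ S₁ ∧ a ∈ O) ∨ a ∈ U := by
    intro a
    rw [hS, Finset.mem_union, Finset.mem_filter, List.mem_toFinset]
  have hUN : ∀ a ∈ U, a ∈ N := fun a ha => (mem_und.1 ha).1
  have hO_S : ∀ a ∈ O, (a ∉ S ↔ a ∉ S₁) := by
    intro a ha
    rw [hmemS]
    constructor
    · intro h h'
      exact h (Or.inl ⟨h', ha⟩)
    · rintro h (h' | h')
      · exact h h'.1
      · exact hdisj a (hUN a h') ha
  refine ⟨S, ?_, ?_⟩
  · refine (Finset.card_union_le _ _).trans ?_
    have h1 : (S₁.filter (fun a => a ∈ O)).card ≤ S₁.card := Finset.card_filter_le _ _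
    have h2 : U.toFinset.card ≤ U.length := List.toFinset_card_le _
    omega
  · intro v hv
    have hvA : v ∈ A := hv.1
    have hvS : v ∉ S := hv.2
    rcases hsplit v hvA with hvN | hvO
    · -- `v ∈ N`
      have hstay : ∀ y, Conn E (st A \ (S : Set ℕ)) v y → y ∈ N ∧ y ∉ S := by
        intro y hy
        unfold Conn at hy
        induction hy with
        | refl => exact ⟨hvN, hvS⟩
        | @tail a b _ hab ih =>
          obtain ⟨hbA, hadj⟩ := hab
          refine ⟨?_, hbA.2⟩
          rcases hsplit b hbA.1 with h | h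
          · exact h
          · exact absurd hadj (hno a ih.1 b h)
      refine ⟨D.toFinset.filter (fun a => Conn E (st A \ (S : Set ℕ)) v a), ?_, ?_, ?_⟩
      · refine (Finset.card_filter_le _ _).trans ((List.toFinset_card_le _).trans ?_)
        exact le_of_eq (mem_tups.1 hD).1
      · intro a ha
        exact (Finset.mem_filter.1 ha).2
      · intro y hy
        obtain ⟨hyN, hyS⟩ := hstay y hy
        have hdom : dom E D y = true := by
          cases h : dom E D y with
          | true => rfl
          | false =>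
            exfalso
            exact hyS ((hmemS y).2 (Or.inr (mem_und.2 ⟨hyN, h⟩)))
        obtain ⟨a, haD, hay⟩ := dom_iff.1 hdom
        have haN : a ∈ N := (mem_tups.1 hD).2 a haD
        have haS : a ∉ S := by
          rw [hmemS]
          rintro (h | h)
          · exact hdisj a haN h.2
          · have h1 := (mem_und.1 h).2
            have h2 : dom E D a = true := dom_iff.2 ⟨a, haD, Or.inl rfl⟩
            rw [h2] at h1
            exact absurd h1 (by simp)
        refine ⟨a, Finset.mem_filter.2 ⟨List.mem_toFinset.2 haD, ?_⟩, hay⟩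
        rcases hay with rfl | hay
        · exact hy
        · refine Relation.ReflTransGen.tail hy ⟨⟨hNA a haN, haS⟩, ?_⟩
          rw [adj_comm]
          exact hay
    · -- `v ∈ O`
      have hvS₁ : v ∉ S₁ := (hO_S v hvO).1 hvS
      have hto : ∀ y, Conn E (st A \ (S : Set ℕ)) v y → y ∈ O ∧ Conn E (st O \ (S₁ : Set ℕ)) v y := by
        intro y hy
        unfold Conn at hy
        induction hy with
        | refl => exact ⟨hvO, Relation.ReflTransGen.refl⟩
        | @tail a b _ hab ih =>
          obtain ⟨hbA, hadj⟩ := hab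
          have hbO : b ∈ O := by
            rcases hsplit b hbA.1 with h | h
            · exfalso
              rw [adj_comm] at hadj
              exact hno b h a ih.1 hadj
            · exact h
          refine ⟨hbO, Relation.ReflTransGen.tail ih.2 ⟨⟨hbO, (hO_S b hbO).1 hbA.2⟩, hadj⟩⟩
      have hfrom : ∀ y, Conn E (st O \ (S₁ : Set ℕ)) v y → Conn E (st A \ (S : Set ℕ)) v y := by
        intro y hy
        unfold Conn at hy
        induction hy with
        | refl => exact Relation.ReflTransGen.refl
        | @tail a b _ hab ih =>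
          exact Relation.ReflTransGen.tail ih
            ⟨⟨hOA b hab.1.1, (hO_S b hab.1.1).2 hab.1.2⟩, hab.2⟩
      obtain ⟨D', hD'c, hD'1, hD'2⟩ := hG v ⟨hvO, hvS₁⟩
      exact ⟨D', hD'c, fun a ha => hfrom a (hD'1 a ha), fun y hy => hD'2 y (hto y hy).2⟩

theorem sound_step {d : ℕ} {x : Inst} {s t : St} (ht : t ∈ children d x s)
    (hy : YesN x.2.1 d (st t.2.1) t.2.2.1) : YesN x.2.1 d (st s.2.1) s.2.2.1 := by
  unfold children at ht
  by_cases h0 : s.1 = 0
  · rw [if_pos h0] at ht
    by_cases hk : s.2.2.1 = 0
    · rw [if_pos hk] at ht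
      simp at ht
    · rw [if_neg hk] at ht
      cases hb : bad x.2.1 d s.2.1 with
      | nil =>
        rw [hb] at ht
        simp at ht
      | cons v l =>
        rw [hb] at ht
        simp only [branch0, List.mem_cons, List.mem_flatMap, List.mem_map] at ht
        rcases ht with rfl | ⟨q, -, R, -, rfl⟩
        · exact sound_del hk hy
        · exact hy
  · rw [if_neg h0] at ht
    cases hc : crossing x.2.1 (cl x.2.1 s.2.1 s.2.2.2) (und x.2.1 s.2.1 s.2.2.2) with
    | nil =>
      rw [hc] at ht
      simp only [finish] at ht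
      by_cases hf : feas x.2.1 d (cl x.2.1 s.2.1 s.2.2.2) s.2.2.1 = true
      · rw [if_pos hf] at ht
        by_cases hm : s.1 = 1 ∧ budget x.2.1 d (cl x.2.1 s.2.1 s.2.2.2) s.2.2.1 = s.2.2.1
        · rw [if_pos hm] at ht
          simp at ht
        · rw [if_neg hm, List.mem_singleton] at ht
          subst ht
          exact sound_finish hc hf hy
      · rw [if_neg hf] at ht
        simp at ht
    | cons e l =>
      rw [hc] at ht
      simp only at ht
      by_cases hk : s.2.2.1 = 0
      · rw [if_pos hk] at ht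
        simp at ht
      · rw [if_neg hk] at ht
        simp only [List.mem_cons, List.not_mem_nil, or_false] at ht
        rcases ht with rfl | rfl
        · exact sound_del hk hy
        · exact sound_del hk hy

theorem sound {d : ℕ} {x : Inst} (h : ∃ s, Reach d x (init x) s ∧ accept d x s = true) :
    YesN x.2.1 d {a | a < x.1} x.2.2 := by
  obtain ⟨s, hr, ha⟩ := h
  have key : ∀ a : St, Reach d x a s → YesN x.2.1 d (st a.2.1) a.2.2.1 := by
    intro a har
    unfold Reach at har
    induction har using Relation.ReflTransGen.head_induction_on with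
    | refl => exact sound_accept ha
    | head hab _ ih => exact sound_step hab ih
  have h1 := key (init x) hr
  have h2 : st (init x).2.1 = {a | a < x.1} := by
    ext a
    simp [st, init]
  rw [h2] at h1
  exact h1

end Pool.Agent.W_MP_3feab3_lc
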