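import Pool.Agent.W_MP_3feab3_lc.Engine
import Pool.Agent.W_MP_3feab3_lc.PFb
import Pool.Agent.W_MP_3feab3_lc.Sound
import Pool.Agent.W_MP_3feab3_lc.Complete0
import Pool.Agent.W_MP_3feab3_lc.Complete1
import Pool.Agent.W_MP_3feab3_lc.Inv
import Pool.Agent.W_MP_3feab3_lc.Bridge
import Pool.Agent.W_MP_3feab3_lc.Numeric

/-! The problem is fixed-parameter tractable. -/

set_option autoImplicit false

namespace Pool.Agent.W_MP_3feab3_lc

open Turing Pool.Agent.PolyTime

theorem st_range (n : ℕ) : st (List.range n) = {a | a < n} := by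
  ext a
  simp [st]

theorem complete {d : ℕ} {x : Inst} (h : YesN x.2.1 d {a | a < x.1} x.2.2) :
    ∃ s, Reach d x (init x) s ∧ accept d x s = true := by
  have key : ∀ r : ℕ, ∀ s : St, rank s ≤ r → Inv x s → Sem d x s →
      ∃ t, Reach d x s t ∧ accept d x t = true := by
    intro r
    induction r with
    | zero =>
      intro s hr hI hs
      cases hacc : accept d x s with
      | true => exact ⟨s, Relation.ReflTransGen.refl, hacc⟩
      | false =>
        exfalso
        by_cases h0 : s.1 = 0
        · obtain ⟨t, ht, _⟩ := complete0 hI hs h0 hacc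
          have := (inv_step hI ht).2
          omega
        · obtain ⟨t, ht, _⟩ := complete1 hI hs h0
          have := (inv_step hI ht).2
          omega
    | succ r ih =>
      intro s hr hI hs
      cases hacc : accept d x s with
      | true => exact ⟨s, Relation.ReflTransGen.refl, hacc⟩
      | false =>
        have hex : ∃ t ∈ children d x s, Sem d x t := by
          by_cases h0 : s.1 = 0
          · exact complete0 hI hs h0 hacc
          · exact complete1 hI hs h0
        obtain ⟨t, ht, hst⟩ := hex
        have h2 := inv_step hI ht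
        obtain ⟨u, hu, hua⟩ := ih t (by omega) h2.1 hst
        exact ⟨u, Relation.ReflTransGen.head ht hu, hua⟩
  refine key _ (init x) le_rfl (inv_init x) ?_
  have : Sem d x (init x) = YesN x.2.1 d (st (List.range x.1)) x.2.2 := by
    simp [Sem, init]
  rw [this, st_range]
  exact h

/-- A parameterized decision problem on instances `(n, E, k)` is fixed-parameter tractable with
parameter `k`: some Turing machine decides it in at most `f(k) * size ^ c` steps, with `f`
computable and `size` the length of the encoding of the instance. -/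
def FPT (P : Inst → Prop) : Prop :=
  ∃ (f : ℕ → ℕ) (c : ℕ) (g : Inst → Bool), Computable f ∧ (∀ x, g x = true ↔ P x) ∧
    Timed en Computability.encodeBool g (fun x => f x.2.2 * sz x ^ c)

theorem Timed.mono {α β αΓ βΓ : Type} {ea : α → List αΓ} {eb : β → List βΓ} {f : α → β}
    {T T' : α → ℕ} (h : Timed ea eb f T) (hT : ∀ a, T a ≤ T' a) : Timed ea eb f T' := by
  obtain ⟨tm, ein, eout, h⟩ := h
  refine ⟨tm, ein, eout, fun a => ?_⟩
  obtain ⟨h⟩ := h a
  exact ⟨⟨⟨h.steps, h.evals_in_steps⟩, h.steps_le_m.trans (hT a)⟩⟩

theorem main (d : ℕ) : FPT (fun x => Solvable d (listGraph x.1 x.2.1) x.2.2) := by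
  obtain ⟨P, g, hg, hT⟩ := engine (ι := Inst) (σ := St) init (children d) (accept d) pf_init
    (pf_children d) (pf_accept d) rank Inv
    (fun x => modBound d x.1 x.2.2 ^ (3 * d + 2) + 2) (fun x => 12 * sz x ^ 2)
    inv_init (fun x s t h ht => inv_step h ht) (fun x s h => length_children h)
    (fun x s h => sz_state_le h)
  obtain ⟨f, c, hf, hb⟩ := fpt_bound d P
  refine ⟨f, c, g, hf, fun x => ?_, hT.mono fun x => ?_⟩
  · exact (hg x).trans (Iff.trans ⟨fun h => sound h, fun h => complete h⟩
      (yes_iff d x.1 x.2.1 x.2.2))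
  · have : rank (init x) = 3 * x.2.2 + 1 := by simp [rank, init]
    rw [this]
    exact hb x

end Pool.Agent.W_MP_3feab3_lc
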