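import Pool.Agent.W_MP_3feab3_lc.Defs
import Pool.Agent.PolyTime.Lists

/-! Polynomial time computability of the basic functions of the algorithm. -/

set_option autoImplicit false

namespace Pool.Agent.W_MP_3feab3_lc

open Pool.Agent.PolyTime

variable {γ : Type} [ToD γ]

theorem pfa_mod_iter (g x n : ℕ) (hg : 0 < g) (h : x < n * g + g) :
    (fun y => if decide (y < g) then y else y - g)^[n] x = x % g := by
  induction n generalizing x with
  | zero => 
    rw [Function.iterate_zero, id]
    exact (Nat.mod_eq_of_lt (by omega)).symm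
  | succ n ih =>
    rw [Function.iterate_succ_apply]
    by_cases hx : x < g
    · have h1 : (if decide (x < g) then x else x - g) = x := by simp [hx]
      rw [h1]
      exact ih x (by nlinarith)
    · have h1 : (if decide (x < g) then x else x - g) = x - g := by simp [hx]
      rw [h1, ih (x - g) (by rw [Nat.add_mul] at h; omega)]
      exact (Nat.mod_eq_sub_mod (by omega)).symm

theorem pfa_mod_iter_le (g x n : ℕ) :
    (fun y => if decide (y < g) then y else y - g)^[n] x ≤ x := by
  induction n with
  | zero => exact le_rfl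
  | succ n ih =>
    rw [Function.iterate_succ_apply']
    refine le_trans ?_ ih
    split <;> omega

theorem pf_mod {f g : γ → ℕ} (hf : PF f) (hg : PF g) : PF (fun c => f c % g c) := by
  obtain ⟨P, hP⟩ := hf.bound
  have h : PF (fun c => (fun y => if decide (y < g c) then y else y - g c)^[f c] (f c)) := by
    refine PF.iter (f := fun c y => if decide (y < g c) then y else y - g c)
      ((PF.id'.snd.lt (hg.comp PF.id'.fst)).ite PF.id'.snd
        (PF.id'.snd.sub (hg.comp PF.id'.fst))) hf hf P ?_
    intro c i _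
    refine le_trans ?_ (hP c)
    rw [sz_nat, sz_nat]
    have := pfa_mod_iter_le (g c) (f c) i
    omega
  refine h.cast (fun c => ?_)
  congr 1
  rcases Nat.eq_zero_or_pos (g c) with h0 | h0
  · rw [h0, Nat.mod_zero]
    have : ∀ n : ℕ, (fun y => if decide (y < 0) then y else y - 0)^[n] (f c) = f c := by
      intro n
      induction n with
      | zero => rfl
      | succ n ih => rw [Function.iterate_succ_apply', ih]; simp
    rw [this]
  · exact (pfa_mod_iter (g c) (f c) (f c) h0 (by nlinarith)).symm

/-- one step of the computation of the logarithm -/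
def pfaStep (n : ℕ) (s : ℕ × ℕ) : ℕ × ℕ := if decide (2 * s.1 ≤ n) then (2 * s.1, s.2 + 1) else s

theorem pfa_log_iter (n i : ℕ) (hn : 0 < n) :
    (pfaStep n)^[i] (1, 0) = (2 ^ min i (Nat.log 2 n), min i (Nat.log 2 n)) := by
  induction i with
  | zero => simp
  | succ i ih =>
    rw [Function.iterate_succ_apply', ih]
    have h1 : (2 * 2 ^ min i (Nat.log 2 n) ≤ n) ↔ min i (Nat.log 2 n) + 1 ≤ Nat.log 2 n := by
      rw [← pow_succ', Nat.le_log_iff_pow_le (by norm_num) (by omega)]
    by_cases h : i + 1 ≤ Nat.log 2 n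
    · have h2 : min i (Nat.log 2 n) = i := by omega
      have h3 : min (i + 1) (Nat.log 2 n) = i + 1 := by omega
      rw [h2] at h1
      have h4 : 2 * 2 ^ i ≤ n := h1.2 h
      simp only [pfaStep, h2, h3, h4, decide_true, if_true]
      rw [pow_succ']
    · have h2 : min i (Nat.log 2 n) = Nat.log 2 n := by omega
      have h3 : min (i + 1) (Nat.log 2 n) = Nat.log 2 n := by omega
      rw [h2] at h1
      have h4 : ¬ 2 * 2 ^ Nat.log 2 n ≤ n := fun h => by
        have := h1.1 h
        omega
      simp only [pfaStep, h2, h3, h4, decide_false]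
      simp

theorem pf_log2 {f : γ → ℕ} (hf : PF f) : PF (fun c => Nat.log 2 (f c)) := by
  obtain ⟨P, hP⟩ := hf.bound
  have h : PF (fun c => (pfaStep (f c))^[f c] (1, 0)) := by
    refine PF.iter (f := fun c s => pfaStep (f c) s) ?_ (PF.const (1, 0)) hf
      (4 * P + 10) ?_
    · exact (((PF.const 2).mul PF.id'.snd.fst).le (hf.comp PF.id'.fst)).ite
        (((PF.const 2).mul PF.id'.snd.fst).pair PF.id'.snd.snd.succ) PF.id'.snd
    · intro c i _
      have h1 := hP c
      rw [sz_nat] at h1
      rw [Polynomial.eval_add, Polynomial.eval_mul, Polynomial.eval_ofNat,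
        Polynomial.eval_ofNat]
      rcases Nat.eq_zero_or_pos (f c) with h0 | h0
      · have : ∀ n : ℕ, (pfaStep (f c))^[n] (1, 0) = (1, 0) := by
          intro n
          rw [h0]
          induction n with
          | zero => rfl
          | succ n ih => rw [Function.iterate_succ_apply', ih]; simp [pfaStep]
        rw [this, sz_pair, sz_nat, sz_nat]
        omega
      · rw [pfa_log_iter _ _ h0, sz_pair, sz_nat, sz_nat]
        have h2 : 2 ^ min i (Nat.log 2 (f c)) ≤ f c :=
          (Nat.pow_le_pow_right (by norm_num) (min_le_right _ _)).trans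
            (Nat.pow_log_le_self 2 (by omega))
        have h3 : min i (Nat.log 2 (f c)) ≤ f c :=
          (min_le_right _ _).trans (Nat.log_le_self 2 (f c))
        omega
  refine h.snd.cast (fun c => ?_)
  congr 1
  rcases Nat.eq_zero_or_pos (f c) with h0 | h0
  · rw [h0]; simp
  · rw [pfa_log_iter _ _ h0]
    exact (min_eq_right (Nat.log_le_self 2 (f c))).symm

theorem pf_adj {E : γ → List (ℕ × ℕ)} {x y : γ → ℕ} (hE : PF E) (hx : PF x) (hy : PF y) :
    PF (fun c => adj (E c) (x c) (y c)) := by
  refine (hx.natEq hy).not.and (PF.any (g := fun c e =>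
    (decide (e.1 = x c) && decide (e.2 = y c)) || (decide (e.1 = y c) && decide (e.2 = x c)))
    ?_ hE)
  have hx' := hx.comp (PF.id' (α := γ × (ℕ × ℕ))).fst
  have hy' := hy.comp (PF.id' (α := γ × (ℕ × ℕ))).fst
  exact ((PF.id'.snd.fst.natEq hx').and (PF.id'.snd.snd.natEq hy')).or
    ((PF.id'.snd.fst.natEq hy').and (PF.id'.snd.snd.natEq hx'))

theorem pf_dom {E : γ → List (ℕ × ℕ)} {X : γ → List ℕ} {y : γ → ℕ} (hE : PF E) (hX : PF X)
    (hy : PF y) : PF (fun c => dom (E c) (X c) (y c)) := by
  refine PF.any (g := fun c x => decide (x = y c) || adj (E c) x (y c)) ?_ hX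
  have hy' := hy.comp (PF.id' (α := γ × ℕ)).fst
  exact (PF.id'.snd.natEq hy').or (pf_adj (hE.comp PF.id'.fst) PF.id'.snd hy')

theorem pf_cl {E : γ → List (ℕ × ℕ)} {A X : γ → List ℕ} (hE : PF E) (hA : PF A) (hX : PF X) :
    PF (fun c => cl (E c) (A c) (X c)) :=
  PF.filter (g := fun c y => dom (E c) (X c) y)
    (pf_dom (hE.comp PF.id'.fst) (hX.comp PF.id'.fst) PF.id'.snd) hA

theorem pf_und {E : γ → List (ℕ × ℕ)} {A X : γ → List ℕ} (hE : PF E) (hA : PF A) (hX : PF X) :
    PF (fun c => und (E c) (A c) (X c)) :=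
  PF.filter (g := fun c y => !dom (E c) (X c) y)
    (pf_dom (hE.comp PF.id'.fst) (hX.comp PF.id'.fst) PF.id'.snd).not hA

theorem pfa_sz_sublist {l l' : List ℕ} (h : l.Sublist l') : sz l ≤ sz l' := by
  induction h with
  | slnil => exact le_rfl
  | cons a _ ih => rw [sz_cons]; omega
  | cons_cons a _ ih => rw [sz_cons, sz_cons]; omega

theorem pf_comp {E : γ → List (ℕ × ℕ)} {A X : γ → List ℕ} (hE : PF E) (hA : PF A) (hX : PF X) :
    PF (fun c => comp (E c) (A c) (X c)) := by
  obtain ⟨P, hP⟩ := hA.bound
  obtain ⟨Q, hQ⟩ := hX.bound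
  refine PF.iter (f := fun c Y => cl (E c) (A c) Y)
    (pf_cl (hE.comp PF.id'.fst) (hA.comp PF.id'.fst) PF.id'.snd) hX hA.length (P + Q) ?_
  intro c i _
  rw [Polynomial.eval_add]
  cases i with
  | zero => exact (hQ c).trans (Nat.le_add_left _ _)
  | succ i =>
    rw [Function.iterate_succ_apply']
    refine (pfa_sz_sublist ?_).trans ((hP c).trans (Nat.le_add_right _ _))
    exact List.filter_sublist

theorem pf_tups (d : ℕ) {l : γ → List ℕ} (hl : PF l) : PF (fun c => tups d (l c)) := by
  induction d with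
  | zero => exact PF.const _
  | succ d ih =>
    refine PF.flatMap (g := fun c t => (l c).map (fun a => a :: t)) ?_ ih
    refine PF.map (g := fun (x : γ × List ℕ) a => a :: x.2) ?_ (hl.comp PF.id'.fst)
    exact PF.id'.snd.cons PF.id'.fst.snd

end Pool.Agent.W_MP_3feab3_lc
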