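import Pool.Agent.W_MP_3feab3_lc.Defs

/-! Meaning of the list functions. -/

set_option autoImplicit false

namespace Pool.Agent.W_MP_3feab3_lc

theorem adj_comm (E : List (ℕ × ℕ)) (x y : ℕ) : adj E x y = adj E y x := by
  rw [Bool.eq_iff_iff]
  simp only [adj, Bool.and_eq_true, Bool.not_eq_true', decide_eq_false_iff_not,
    List.any_eq_true, Bool.or_eq_true, decide_eq_true_eq]
  constructor <;> rintro ⟨h, e, he, h2⟩ <;> exact ⟨fun h3 => h h3.symm, e, he, h2.symm⟩

theorem adj_ne {E : List (ℕ × ℕ)} {x y : ℕ} (h : adj E x y = true) : x ≠ y := by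
  simp only [adj, Bool.and_eq_true, Bool.not_eq_true', decide_eq_false_iff_not] at h
  exact h.1

theorem dom_iff {E : List (ℕ × ℕ)} {X : List ℕ} {y : ℕ} :
    dom E X y = true ↔ ∃ x ∈ X, x = y ∨ adj E x y = true := by
  simp only [dom, List.any_eq_true, Bool.or_eq_true, decide_eq_true_eq]

theorem mem_tups {d : ℕ} {l t : List ℕ} : t ∈ tups d l ↔ t.length = d ∧ ∀ a ∈ t, a ∈ l := by
  induction d generalizing t with
  | zero =>
    simp only [tups, List.mem_singleton]
    constructor
    · rintro rfl; simp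
    · rintro ⟨h, _⟩; exact List.length_eq_zero_iff.1 h
  | succ d ih =>
    simp only [tups, List.mem_flatMap, List.mem_map]
    constructor
    · rintro ⟨s, hs, a, ha, rfl⟩
      obtain ⟨h1, h2⟩ := ih.1 hs
      refine ⟨by simp [h1], ?_⟩
      intro b hb
      rcases List.mem_cons.1 hb with rfl | hb
      · exact ha
      · exact h2 b hb
    · rintro ⟨h1, h2⟩
      cases t with
      | nil => simp at h1
      | cons a s =>
        exact ⟨s, ih.2 ⟨by simpa using h1, fun b hb => h2 b (List.mem_cons_of_mem _ hb)⟩, a,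
          h2 a List.mem_cons_self, rfl⟩

theorem mem_cl {E : List (ℕ × ℕ)} {A X : List ℕ} {y : ℕ} :
    y ∈ cl E A X ↔ y ∈ A ∧ dom E X y = true := by
  simp [cl]

private theorem cl_mono {E : List (ℕ × ℕ)} {A X Y : List ℕ} (h : X ⊆ Y) :
    cl E A X ⊆ cl E A Y := by
  intro y hy
  rw [mem_cl] at hy ⊢
  refine ⟨hy.1, ?_⟩
  obtain ⟨x, hx, h1⟩ := dom_iff.1 hy.2
  exact dom_iff.2 ⟨x, h hx, h1⟩

private theorem cl_incr {E : List (ℕ × ℕ)} {A X : List ℕ} (h : X ⊆ A) : X ⊆ cl E A X :=
  fun x hx => mem_cl.2 ⟨h hx, dom_iff.2 ⟨x, hx, Or.inl rfl⟩⟩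

private theorem iter_sub {E : List (ℕ × ℕ)} {A X : List ℕ} (h : X ⊆ A) (i : ℕ) :
    (fun Y => cl E A Y)^[i] X ⊆ A := by
  cases i with
  | zero => exact h
  | succ i =>
    rw [Function.iterate_succ_apply']
    exact fun y hy => (mem_cl.1 hy).1

private theorem iter_incr {E : List (ℕ × ℕ)} {A X : List ℕ} (h : X ⊆ A) (i : ℕ) :
    X ⊆ (fun Y => cl E A Y)^[i] X := by
  induction i with
  | zero => exact fun _ hx => hx
  | succ i ih =>
    rw [Function.iterate_succ_apply']
    exact fun x hx => cl_incr (iter_sub h i) (ih hx)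

private theorem iter_closed {E : List (ℕ × ℕ)} {A X : List ℕ} (h : X ⊆ A) :
    cl E A (comp E A X) ⊆ comp E A X := by
  classical
  have key : ∀ i : ℕ, (cl E A ((fun Y => cl E A Y)^[i] X) ⊆ (fun Y => cl E A Y)^[i] X) ∨
      i < ((fun Y => cl E A Y)^[i + 1] X).toFinset.card := by
    intro i
    induction i with
    | zero =>
      by_cases h1 : cl E A ((fun Y => cl E A Y)^[0] X) ⊆ (fun Y => cl E A Y)^[0] X
      · exact Or.inl h1
      · right
        have h2 : (X.toFinset) ⊂ (cl E A X).toFinset := by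
          refine ⟨fun x hx => List.mem_toFinset.2 (cl_incr h (List.mem_toFinset.1 hx)), ?_⟩
          intro h3
          exact h1 fun x hx => List.mem_toFinset.1 (h3 (List.mem_toFinset.2 hx))
        exact lt_of_le_of_lt (Nat.zero_le _) (Finset.card_lt_card h2)
    | succ i ih =>
      rcases ih with ih | ih
      · left
        rw [Function.iterate_succ_apply']
        exact cl_mono ih
      · by_cases h1 : cl E A ((fun Y => cl E A Y)^[i + 1] X) ⊆ (fun Y => cl E A Y)^[i + 1] X
        · exact Or.inl h1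
        · right
          have h2 : ((fun Y => cl E A Y)^[i + 1] X).toFinset ⊂
              ((fun Y => cl E A Y)^[i + 1 + 1] X).toFinset := by
            rw [Function.iterate_succ_apply' _ (i + 1)]
            refine ⟨fun x hx => List.mem_toFinset.2
              (cl_incr (iter_sub h _) (List.mem_toFinset.1 hx)), ?_⟩
            intro h3
            exact h1 fun x hx => List.mem_toFinset.1 (h3 (List.mem_toFinset.2 hx))
          have := Finset.card_lt_card h2
          omega
  rcases key A.length with h1 | h1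
  · exact h1
  · exfalso
    have h2 : ((fun Y => cl E A Y)^[A.length + 1] X).toFinset ⊆ A.toFinset :=
      fun x hx => List.mem_toFinset.2 (iter_sub h _ (List.mem_toFinset.1 hx))
    have h3 := Finset.card_le_card h2
    have h4 := List.toFinset_card_le A
    omega

/-- `comp E A X` is the set of vertices reachable from `X` inside `A` (when `X ⊆ A`). -/
theorem mem_comp {E : List (ℕ × ℕ)} {A X : List ℕ} (hX : ∀ x ∈ X, x ∈ A) {y : ℕ} :
    y ∈ comp E A X ↔ ∃ x ∈ X, Conn E (st A) x y := by
  constructor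
  · intro hy
    have key : ∀ (i : ℕ) (z : ℕ), z ∈ (fun Y => cl E A Y)^[i] X →
        ∃ x ∈ X, Conn E (st A) x z := by
      intro i
      induction i with
      | zero => exact fun z hz => ⟨z, hz, Relation.ReflTransGen.refl⟩
      | succ i ih =>
        intro z hz
        rw [Function.iterate_succ_apply'] at hz
        obtain ⟨hzA, hd⟩ := mem_cl.1 hz
        obtain ⟨w, hw, h1⟩ := dom_iff.1 hd
        obtain ⟨x, hx, h2⟩ := ih w hw
        refine ⟨x, hx, ?_⟩
        rcases h1 with rfl | h1
        · exact h2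
        · exact h2.tail ⟨hzA, h1⟩
    exact key _ y hy
  · rintro ⟨x, hx, h⟩
    induction h with
    | refl => exact iter_incr hX _ hx
    | tail _ h1 ih =>
      exact iter_closed hX (mem_cl.2 ⟨h1.1, dom_iff.2 ⟨_, ih, Or.inr h1.2⟩⟩)

/-- `feas` in terms of finite sets: at most `d` members of `N` dominate all but at most `k`
members of `N`. (Direction from sets to lists needs `N` nonempty or `d = 0`.) -/
theorem feas_iff {E : List (ℕ × ℕ)} {d k : ℕ} {N : List ℕ} :
    feas E d N k = true ↔ ∃ D ∈ tups d N, (und E N D).length ≤ k := by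
  simp only [feas, List.any_eq_true, decide_eq_true_eq]

theorem mem_und {E : List (ℕ × ℕ)} {A X : List ℕ} {y : ℕ} :
    y ∈ und E A X ↔ y ∈ A ∧ dom E X y = false := by
  simp [und]

theorem compOK_iff {E : List (ℕ × ℕ)} {d : ℕ} {A : List ℕ} {v : ℕ} (hv : v ∈ A) :
    compOK E d (comp E A [v]) = true ↔ GoodAt E d (st A) v := by
  classical
  have hmem : ∀ y, y ∈ comp E A [v] ↔ Conn E (st A) v y := by
    intro y
    rw [mem_comp (by simpa using hv)]
    simp
  simp only [compOK, List.any_eq_true, List.isEmpty_iff]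
  constructor
  · rintro ⟨D, hD, h1⟩
    obtain ⟨hlen, hsub⟩ := mem_tups.1 hD
    refine ⟨D.toFinset, (List.toFinset_card_le D).trans hlen.le, ?_, ?_⟩
    · intro x hx
      exact (hmem x).1 (hsub x (List.mem_toFinset.1 hx))
    · intro y hy
      by_contra hne
      have h2 : y ∈ und E (comp E A [v]) D := by
        refine mem_und.2 ⟨(hmem y).2 hy, ?_⟩
        rw [← Bool.not_eq_true, dom_iff]
        rintro ⟨x, hx, h3⟩
        exact hne ⟨x, List.mem_toFinset.2 hx, h3⟩
      rw [h1] at h2
      simp at h2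
  · rintro ⟨D, hcard, hsub, hdom⟩
    obtain ⟨x0, hx0, _⟩ := hdom v Relation.ReflTransGen.refl
    refine ⟨D.toList ++ List.replicate (d - D.card) x0, mem_tups.2 ⟨?_, ?_⟩, ?_⟩
    · simp only [List.length_append, Finset.length_toList, List.length_replicate]
      omega
    · intro a ha
      rcases List.mem_append.1 ha with ha | ha
      · exact (hmem a).2 (hsub a (Finset.mem_toList.1 ha))
      · rw [List.eq_of_mem_replicate ha]
        exact (hmem x0).2 (hsub x0 hx0)
    · rw [List.eq_nil_iff_forall_not_mem]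
      intro y hy
      obtain ⟨hy1, hy2⟩ := mem_und.1 hy
      obtain ⟨x, hx, h3⟩ := hdom y ((hmem y).1 hy1)
      rw [← Bool.not_eq_true, dom_iff] at hy2
      exact hy2 ⟨x, List.mem_append_left _ (Finset.mem_toList.2 hx), h3⟩

theorem mem_bad {E : List (ℕ × ℕ)} {d : ℕ} {A : List ℕ} {v : ℕ} :
    v ∈ bad E d A ↔ v ∈ A ∧ ¬ GoodAt E d (st A) v := by
  simp only [bad, List.mem_filter]
  constructor
  · rintro ⟨h1, h2⟩
    refine ⟨h1, fun h3 => ?_⟩
    rw [(compOK_iff h1).2 h3] at h2
    simp at h2
  · rintro ⟨h1, h2⟩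
    refine ⟨h1, ?_⟩
    rw [← compOK_iff h1, Bool.not_eq_true] at h2
    rw [h2]
    rfl

theorem bad_eq_nil_iff {E : List (ℕ × ℕ)} {d : ℕ} {A : List ℕ} :
    bad E d A = [] ↔ Good E d (st A) := by
  rw [List.eq_nil_iff_forall_not_mem]
  constructor
  · intro h v hv
    by_contra h1
    exact h v (mem_bad.2 ⟨hv, h1⟩)
  · intro h v hv
    exact (mem_bad.1 hv).2 (h v (mem_bad.1 hv).1)

theorem mem_del {A : List ℕ} {v y : ℕ} : y ∈ del A v ↔ y ∈ A ∧ y ≠ v := by
  simp [del]

theorem mem_crossing {E : List (ℕ × ℕ)} {N O : List ℕ} {e : ℕ × ℕ} :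
    e ∈ crossing E N O ↔ e.1 ∈ N ∧ e.2 ∈ O ∧ adj E e.1 e.2 = true := by
  simp only [crossing, List.mem_flatMap, List.mem_map, List.mem_filter]
  constructor
  · rintro ⟨x, hx, y, ⟨hy, h⟩, rfl⟩
    exact ⟨hx, hy, h⟩
  · rintro ⟨h1, h2, h3⟩
    exact ⟨e.1, h1, e.2, ⟨h2, h3⟩, rfl⟩

theorem budget_le (E : List (ℕ × ℕ)) (d : ℕ) (N : List ℕ) (k : ℕ) : budget E d N k ≤ k := by
  have h := List.length_filter_le (fun j => feas E d N (k - (j + 1))) (List.range k)
  rwa [List.length_range] at h

private theorem filter_initial (p : ℕ → Bool) (k : ℕ)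
    (hp : ∀ i j, i ≤ j → p j = true → p i = true) :
    (List.range k).filter p = List.range ((List.range k).filter p).length := by
  induction k with
  | zero => rfl
  | succ k ih =>
    rw [List.range_succ, List.filter_append]
    by_cases hk : p k = true
    · have h1 : (List.range k).filter p = List.range k := by
        rw [List.filter_eq_self]
        intro i hi
        exact hp i k (List.mem_range.1 hi).le hk
      have h2 : [k].filter p = [k] := by simp [hk]
      rw [h1, h2, List.length_append, List.length_range, List.length_singleton,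
        List.range_succ]
    · have h2 : [k].filter p = [] := by simp [hk]
      rw [h2, List.append_nil]
      exact ih

private theorem feas_mono {E : List (ℕ × ℕ)} {d : ℕ} {N : List ℕ} {k k' : ℕ} (h : k ≤ k')
    (h1 : feas E d N k = true) : feas E d N k' = true := by
  rw [feas_iff] at h1 ⊢
  obtain ⟨D, hD, h2⟩ := h1
  exact ⟨D, hD, h2.trans h⟩

private theorem mem_budget_filter (E : List (ℕ × ℕ)) (d : ℕ) (N : List ℕ) (k j : ℕ) :
    (j < k ∧ feas E d N (k - (j + 1)) = true) ↔ j < budget E d N k := by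
  have h := filter_initial (fun j => feas E d N (k - (j + 1))) k
    (fun i j hij hj => feas_mono (by omega) hj)
  have h1 : j ∈ (List.range k).filter (fun j => feas E d N (k - (j + 1))) ↔
      j < budget E d N k := by
    rw [h, List.mem_range]
    rfl
  rw [← h1, List.mem_filter, List.mem_range]

/-- The budget computed by the algorithm is realised. -/
theorem budget_sound {E : List (ℕ × ℕ)} {d : ℕ} {N : List ℕ} {k : ℕ} (h : feas E d N k = true) :
    feas E d N (k - budget E d N k) = true := by
  rcases Nat.eq_zero_or_pos (budget E d N k) with h0 | h0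
  · rw [h0]
    exact h
  · have h1 := ((mem_budget_filter E d N k (budget E d N k - 1)).2 (by omega)).2
    rwa [Nat.sub_add_cancel h0] at h1

/-- The budget computed by the algorithm is optimal. -/
theorem budget_complete {E : List (ℕ × ℕ)} {d : ℕ} {N : List ℕ} {k c : ℕ} (hc : c ≤ k)
    (h : feas E d N c = true) : k ≤ c + budget E d N k := by
  rcases hc.eq_or_lt with rfl | hlt
  · omega
  · have h1 := (mem_budget_filter E d N k (k - c - 1)).1 ⟨by omega, by
      have : k - (k - c - 1 + 1) = c := by omega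
      rw [this]
      exact h⟩
    omega

end Pool.Agent.W_MP_3feab3_lc
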